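import Pool.Agent.Lib.MP_c11b14_lc.OP.C0

set_option autoImplicit false

/-! T0: functions with a measurable majorant on `[1, 2]` whose integral over every set of measure `β`
is bounded by a function of `β`. -/

namespace Pool.Agent.MP_c11b14_lc.OP

open Polynomial Complex MeasureTheory
open scoped ENNReal

/-- `f` has a measurable majorant on `[1, 2]` (almost everywhere) with integral at most `b β` over every measurable
subset of `[1, 2]` of measure `β`, `0 < β ≤ 1`. -/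
def MajS (f : ℝ → ℝ≥0∞) (b : ℝ → ℝ≥0∞) : Prop :=
  ∃ H : ℝ → ℝ≥0∞, Measurable H ∧ (∀ᵐ lm ∂(volume.restrict (Set.Icc (1 : ℝ) 2)), f lm ≤ H lm) ∧
    ∀ β : ℝ, 0 < β → β ≤ 1 → ∀ S ⊆ Set.Icc (1 : ℝ) 2, MeasurableSet S → volume S = ENNReal.ofReal β →
      ∫⁻ lm in S, H lm ≤ b β

theorem MajS.mono' {f g : ℝ → ℝ≥0∞} {b d : ℝ → ℝ≥0∞} (h : MajS f b)
    (hg : ∀ lm, 1 ≤ lm → lm ≤ 2 → g lm ≤ f lm) (hB : ∀ β, 0 < β → β ≤ 1 → b β ≤ d β) : MajS g d := by
  obtain ⟨H, hm, hf, hi⟩ := h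
  refine ⟨H, hm, ?_, fun β h0 h1 S hS hSm hv => (hi β h0 h1 S hS hSm hv).trans (hB β h0 h1)⟩
  filter_upwards [hf, ae_restrict_mem measurableSet_Icc] with lm h1 hl using (hg lm hl.1 hl.2).trans h1

theorem MajS.add {f g : ℝ → ℝ≥0∞} {b d : ℝ → ℝ≥0∞} (hf : MajS f b) (hg : MajS g d) :
    MajS (fun lm => f lm + g lm) (fun β => b β + d β) := by
  obtain ⟨H, hm, hf, hi⟩ := hf
  obtain ⟨G, gm, hg, gi⟩ := hg
  refine ⟨fun lm => H lm + G lm, hm.add gm, ?_, fun β h0 h1 S hS hSm hv => ?_⟩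
  · filter_upwards [hf, hg] with lm h1 h2 using add_le_add h1 h2
  · rw [lintegral_add_left hm]
    exact add_le_add (hi β h0 h1 S hS hSm hv) (gi β h0 h1 S hS hSm hv)

theorem MajS.sum {ι : Type} (s : Finset ι) {f : ι → ℝ → ℝ≥0∞} {b : ι → ℝ → ℝ≥0∞}
    (h : ∀ i ∈ s, MajS (f i) (b i)) : MajS (fun lm => ∑ i ∈ s, f i lm) (fun β => ∑ i ∈ s, b i β) := by
  classical
  induction s using Finset.induction_on with
  | empty => exact ⟨fun _ => 0, measurable_const, by simp, by simp⟩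
  | insert a s ha ih =>
    simp only [Finset.sum_insert ha]
    exact (h a (Finset.mem_insert_self a s)).add (ih fun i hi => h i (Finset.mem_insert_of_mem hi))

theorem MajS.tsum {ι : Type} [Countable ι] {f : ι → ℝ → ℝ≥0∞} {b : ι → ℝ → ℝ≥0∞}
    (h : ∀ i, MajS (f i) (b i)) : MajS (fun lm => ∑' i, f i lm) (fun β => ∑' i, b i β) := by
  choose H hm hf hi using h
  refine ⟨fun lm => ∑' i, H i lm, ?_, ?_, ?_⟩
  · exact Measurable.ennreal_tsum hm
  · filter_upwards [ae_all_iff.2 hf] with lm h1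
    exact ENNReal.tsum_le_tsum h1
  · intro β h0 h1 S hS hSm hv
    rw [lintegral_tsum fun i => (hm i).aemeasurable]
    exact ENNReal.tsum_le_tsum fun i => hi i β h0 h1 S hS hSm hv

theorem MajS.const (a : ℝ≥0∞) : MajS (fun _ => a) (fun β => a * ENNReal.ofReal β) := by
  refine ⟨fun _ => a, measurable_const, by simp, ?_⟩
  intro β _ _ S _ _ hv
  rw [setLIntegral_const, hv]

theorem MajS.inf {f : ℝ → ℝ≥0∞} {b d : ℝ → ℝ≥0∞} (hf : MajS f b) (hg : MajS f d) :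
    MajS f (fun β => min (b β) (d β)) := by
  obtain ⟨H, hm, hf, hi⟩ := hf
  obtain ⟨G, gm, hg, gi⟩ := hg
  refine ⟨fun lm => min (H lm) (G lm), hm.min gm, ?_, fun β h0 h1 S hS hSm hv => ?_⟩
  · filter_upwards [hf, hg] with lm h1 h2 using le_min h1 h2
  · refine le_min ?_ ?_
    · exact (lintegral_mono fun lm => min_le_left _ _).trans (hi β h0 h1 S hS hSm hv)
    · exact (lintegral_mono fun lm => min_le_right _ _).trans (gi β h0 h1 S hS hSm hv)

theorem Maj.toS {f : ℝ → ℝ≥0∞} {B : ℝ≥0∞} (h : Maj f B) : MajS f (fun _ => B) := by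
  obtain ⟨H, hm, hf, hi⟩ := h
  exact ⟨H, hm, hf, fun β _ _ S hS _ _ => (lintegral_mono_set hS).trans hi⟩

theorem MajS.everywhere {f : ℝ → ℝ≥0∞} {b : ℝ → ℝ≥0∞} (h : MajS f b) : ∃ H : ℝ → ℝ≥0∞, Measurable H ∧
    (∀ c, f c ≤ H c) ∧ ∀ β : ℝ, 0 < β → β ≤ 1 → ∀ S ⊆ Set.Icc (1 : ℝ) 2, MeasurableSet S →
      volume S = ENNReal.ofReal β → ∫⁻ lm in S, H lm ≤ b β := by
  classical
  obtain ⟨H, hm, hf, hi⟩ := h
  set N : Set ℝ := toMeasurable (volume.restrict (Set.Icc (1 : ℝ) 2)) {c | ¬ f c ≤ H c} with hN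
  have hN0 : (volume.restrict (Set.Icc (1 : ℝ) 2)) N = 0 := by
    rw [hN, measure_toMeasurable]
    exact hf
  have hNm : MeasurableSet N := measurableSet_toMeasurable _ _
  refine ⟨fun c => if c ∈ N then ⊤ else H c, Measurable.ite hNm measurable_const hm, ?_, ?_⟩
  · intro c
    by_cases hc : c ∈ N
    · simp [hc]
    · simp only [hc, if_false]
      by_contra h2
      exact hc (subset_toMeasurable _ _ h2)
  · intro β h0 h1 S hS hSm hv
    refine le_trans (le_of_eq ?_) (hi β h0 h1 S hS hSm hv)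
    refine lintegral_congr_ae ?_
    have h2 : ∀ᵐ c ∂(volume.restrict (Set.Icc (1 : ℝ) 2)), c ∉ N := by
      rw [ae_iff]
      simpa using hN0
    have h3 : ∀ᵐ c ∂(volume.restrict S), c ∉ N :=
      ae_mono (Measure.restrict_mono hS le_rfl) h2
    filter_upwards [h3] with c hc
    simp [hc]

end Pool.Agent.MP_c11b14_lc.OP
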