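import Pool.Agent.Lib.MP_c11b14_lc.TB.T0
import Pool.Agent.Lib.MP_c11b14_lc.OP.E2

set_option autoImplicit false

/-! T1a: `∫_S log ‖A + λ B‖ dλ`. -/

namespace Pool.Agent.MP_c11b14_lc.OP

open Polynomial Complex MeasureTheory Real
open scoped ENNReal

/-- The minorant `log (λ + r) - log β` on the interval of half length `β` around `-r`. -/
private theorem T1a_minor (r : ℝ) {β : ℝ} (h0 : 0 < β) :
    Integrable ((Set.Ioc (-r - β) (-r + β)).indicator fun x : ℝ => Real.log (x + r) - Real.log β) volume ∧
      ∫ x, (Set.Ioc (-r - β) (-r + β)).indicator (fun x : ℝ => Real.log (x + r) - Real.log β) x = -2 * β := by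
  have hlogi : IntervalIntegrable (fun x : ℝ => Real.log (x + r)) volume (-r - β) (-r + β) := by
    have h := (intervalIntegral.intervalIntegrable_log' (a := -β) (b := β)).comp_add_right r
    have e1 : -β - r = -r - β := by ring
    have e2 : β - r = -r + β := by ring
    rw [e1, e2] at h
    exact h
  have hle : -r - β ≤ -r + β := by linarith
  have hI : IntervalIntegrable (fun x : ℝ => Real.log (x + r) - Real.log β) volume (-r - β) (-r + β) :=
    IntervalIntegrable.sub hlogi (by simp)
  have hon := (intervalIntegrable_iff_integrableOn_Ioc_of_le hle).mp hI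
  refine ⟨hon.integrable_indicator measurableSet_Ioc, ?_⟩
  rw [integral_indicator measurableSet_Ioc, ← intervalIntegral.integral_of_le hle,
    intervalIntegral.integral_sub hlogi (by simp), intervalIntegral.integral_const,
    intervalIntegral.integral_comp_add_right (fun t => Real.log t) r, integral_log]
  have e1 : -r + β + r = β := by ring
  have e2 : -r - β + r = -β := by ring
  rw [e1, e2, Real.log_neg_eq_log, smul_eq_mul]
  ring

/-- T1a. PROOF. As `E2.int_log`. Integrability: `int_log` (`Icc` and `Ioc` agree up to a null set) and `IntegrableOn.mono_set`. `A = B = 0`: trivial (`log 0 = 0`, `log β ≤ 0`). If `4‖B‖ ≤ ‖A‖`: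
`log ‖A + λB‖ ≥ log ‖A‖ - log 2` on `[1, 2]`. Else with `r = Re (A/B)`: `log ‖A + λB‖ ≥ log ‖B‖ + log |λ + r|` for `λ ≠ -r`, and
`log |λ + r| = log β + log |(λ + r)/β| ≥ log β + min 0 (log |(λ + r)/β|)`; `∫_S min 0 (log |(λ + r)/β|) ≥ ∫_ℝ min 0 (log |(λ + r)/β|) = β ∫_{-1}^1 log |s| = -2 β`
(or: `∫_S min 0 (..) ≥ ∫_{[-r-β, -r+β]} log |(λ+r)/β|`, as the function is `≤ 0` and vanishes outside). `log max ≤ log ‖B‖ + 2 log 2`. -/
theorem int_logS (A B : ℂ) {β : ℝ} (h0 : 0 < β) (h1 : β ≤ 1) {S : Set ℝ} (hS : S ⊆ Set.Icc (1 : ℝ) 2)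
    (hm : MeasurableSet S) (hv : volume S = ENNReal.ofReal β) :
    IntegrableOn (fun lm : ℝ => Real.log ‖A + lm * B‖) S volume ∧
      β * (Real.log (max ‖A‖ ‖B‖) - 4 + Real.log β) ≤ ∫ lm in S, Real.log ‖A + lm * B‖ := by
  have hint : IntegrableOn (fun lm : ℝ => Real.log ‖A + lm * B‖) S volume := by
    have h := (intervalIntegrable_iff_integrableOn_Ioc_of_le (by norm_num : (1 : ℝ) ≤ 2)).mp (int_log A B).1
    rw [← integrableOn_Icc_iff_integrableOn_Ioc] at h
    exact h.mono_set hS
  refine ⟨hint, ?_⟩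
  have hfin : volume S ≠ ⊤ := by rw [hv]; exact ENNReal.ofReal_ne_top
  have hreal : volume.real S = β := by
    rw [measureReal_def, hv, ENNReal.toReal_ofReal h0.le]
  have hlog2 : Real.log 2 ≤ 1 := by
    have := Real.log_two_lt_d9; linarith
  have hlog2' : 2 * Real.log 2 ≤ 2 := by linarith
  have hlb : Real.log β ≤ 0 := Real.log_nonpos h0.le h1
  have hconst : ∀ c : ℝ, IntegrableOn (fun _ : ℝ => c) S volume := fun c => integrableOn_const hfin
  have hconstI : ∀ c : ℝ, ∫ _ in S, c = β * c := by
    intro c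
    rw [setIntegral_const, hreal, smul_eq_mul]
  rcases le_or_gt (4 * ‖B‖) ‖A‖ with h | h
  · -- `‖A‖ ≥ 4 ‖B‖`
    have hB := norm_nonneg B
    have hmax : max ‖A‖ ‖B‖ = ‖A‖ := max_eq_left (by linarith)
    rw [hmax]
    rcases (norm_nonneg A).eq_or_lt with hA | hA
    · have hA0 : A = 0 := norm_eq_zero.mp hA.symm
      have hB0 : B = 0 := norm_eq_zero.mp (by linarith)
      rw [hA0, hB0]
      simp only [norm_zero, Real.log_zero, mul_zero, add_zero, integral_zero]
      nlinarith
    · have hle : ∫ lm in S, (Real.log ‖A‖ - Real.log 2) ≤ ∫ lm in S, Real.log ‖A + lm * B‖ := by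
        apply setIntegral_mono_on (hconst _) hint hm
        intro u hu
        have hu' := hS hu
        rw [← Real.log_div hA.ne' (by norm_num)]
        apply Real.log_le_log (by positivity)
        have h1 : ‖(u : ℂ) * B‖ ≤ 2 * ‖B‖ := by
          rw [norm_mul, Complex.norm_real, Real.norm_eq_abs, abs_of_nonneg (by linarith [hu'.1])]
          exact mul_le_mul_of_nonneg_right hu'.2 hB
        have h2 : ‖A‖ ≤ ‖A + u * B‖ + ‖(u : ℂ) * B‖ := by
          have := norm_sub_le (A + u * B) (u * B)
          simpa using this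
        linarith
      rw [hconstI] at hle
      refine le_trans ?_ hle
      exact mul_le_mul_of_nonneg_left (by linarith) h0.le
  · -- `B ≠ 0`
    have hB : 0 < ‖B‖ := by
      by_contra hc
      have h0 : ‖B‖ = 0 := le_antisymm (not_lt.mp hc) (norm_nonneg B)
      rw [h0] at h
      have := norm_nonneg A
      linarith
    have hB0 : B ≠ 0 := norm_pos_iff.mp hB
    set r := (A / B).re with hr
    obtain ⟨gi, ge⟩ := T1a_minor r h0
    set g : ℝ → ℝ := (Set.Ioc (-r - β) (-r + β)).indicator fun x : ℝ => Real.log (x + r) - Real.log β with hg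
    have hne : ∀ᵐ lm : ℝ ∂volume, lm ≠ -r := by
      rw [ae_iff]
      simp
    have hpt : ∀ᵐ lm : ℝ ∂volume, Real.log ‖B‖ + Real.log β + g lm ≤ Real.log ‖A + lm * B‖ := by
      filter_upwards [hne] with lm hl
      have h1 : A + lm * B = B * (lm + A / B) := by field_simp; ring
      have h2 : |lm + r| ≤ ‖(lm : ℂ) + A / B‖ := by
        have := Complex.abs_re_le_norm ((lm : ℂ) + A / B)
        simpa [hr] using this
      have h3 : 0 < |lm + r| := abs_pos.mpr (fun h => hl (by linarith))
      have h4 : ‖(lm : ℂ) + A / B‖ ≠ 0 := (h3.trans_le h2).ne'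
      rw [h1, norm_mul, Real.log_mul hB.ne' h4]
      have h5 : Real.log (lm + r) ≤ Real.log ‖(lm : ℂ) + A / B‖ := by
        rw [← Real.log_abs (lm + r)]
        exact Real.log_le_log h3 h2
      have h6 : Real.log β + g lm ≤ Real.log (lm + r) := by
        by_cases hJ : lm ∈ Set.Ioc (-r - β) (-r + β)
        · rw [hg, Set.indicator_of_mem hJ]
          linarith
        · rw [hg, Set.indicator_of_notMem hJ, add_zero, ← Real.log_abs (lm + r)]
          apply Real.log_le_log h0
          rw [Set.mem_Ioc, not_and_or] at hJ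
          rcases hJ with hJ | hJ
          · rw [le_abs]; right; linarith
          · rw [le_abs]; left; linarith
      linarith
    have hg0 : ∀ᵐ lm : ℝ ∂volume, 0 ≤ -g lm := by
      filter_upwards [hne] with lm hl
      have h3 : 0 < |lm + r| := abs_pos.mpr (fun h => hl (by linarith))
      by_cases hJ : lm ∈ Set.Ioc (-r - β) (-r + β)
      · rw [hg, Set.indicator_of_mem hJ, ← Real.log_abs (lm + r)]
        have : |lm + r| ≤ β := by
          rw [abs_le]
          constructor <;> linarith [hJ.1, hJ.2]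
        have := Real.log_le_log h3 this
        linarith
      · rw [hg, Set.indicator_of_notMem hJ]
        simp
    have hgS : -2 * β ≤ ∫ lm in S, g lm := by
      have h7 := setIntegral_le_integral (s := S) gi.neg hg0
      simp only [Pi.neg_apply] at h7
      rw [integral_neg, integral_neg, ge] at h7
      linarith
    have hle : ∫ lm in S, (Real.log ‖B‖ + Real.log β + g lm) ≤ ∫ lm in S, Real.log ‖A + lm * B‖ :=
      setIntegral_mono_ae ((hconst _).add gi.integrableOn) hint hpt
    rw [integral_add (hconst _) gi.integrableOn, hconstI] at hle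
    have hmax : Real.log (max ‖A‖ ‖B‖) ≤ Real.log ‖B‖ + 2 * Real.log 2 := by
      have h6 : max ‖A‖ ‖B‖ ≤ ‖B‖ * 4 := max_le (by linarith) (by linarith)
      have h7 : 0 < max ‖A‖ ‖B‖ := lt_max_of_lt_right hB
      have h8 := Real.log_le_log h7 h6
      rw [Real.log_mul hB.ne' (by norm_num), show (4 : ℝ) = 2 ^ 2 by norm_num, Real.log_pow] at h8
      push_cast at h8
      linarith
    have hfinal : β * (Real.log (max ‖A‖ ‖B‖) - 4 + Real.log β) ≤
        β * (Real.log ‖B‖ + Real.log β) + -2 * β := by
      have : Real.log (max ‖A‖ ‖B‖) - 4 + Real.log β ≤ Real.log ‖B‖ + Real.log β - 2 := by linarith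
      have := mul_le_mul_of_nonneg_left this h0.le
      linarith
    linarith

end Pool.Agent.MP_c11b14_lc.OP
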