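import Pool.Agent.Lib.MP_c11b14_lc.OP.E3
import Pool.Agent.Lib.MP_c11b14_lc.OP.C2

set_option autoImplicit false

/-! T2a: the circle averages in a flat disc. -/

namespace Pool.Agent.MP_c11b14_lc.OP

open Polynomial Complex MeasureTheory Real
open scoped ENNReal

private theorem T2a_ev_gp {κ : Type} [Fintype κ] (p : κ → ℝ[X]) (σ : κ → Bool) (b : Bool) (z : ℂ) :
    ev (gp p σ b) z = ∏ k ∈ Finset.univ.filter (fun k => σ k = b), ev (p k) z := by
  unfold ev gp
  rw [Polynomial.map_prod, eval_prod]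

private theorem T2a_diff (P : ℝ[X]) : Differentiable ℂ (ev P) := fun z =>
  (hasDerivAt_ev P z).differentiableAt

private theorem T2a_log {κ : Type} [Fintype κ] {p : κ → ℝ[X]} (σ : κ → Bool) {z : ℂ}
    (hz : ∀ k, ev (p k) z ≠ 0) :
    logDeriv (fun w => ev (gp p σ true) w / ev (gp p σ false) w) z = lD p σ z := by
  have hne : ∀ b, ev (gp p σ b) z ≠ 0 := fun b => by
    rw [T2a_ev_gp]
    exact Finset.prod_ne_zero_iff.2 fun k _ => hz k
  have h1 : ∀ b, logDeriv (ev (gp p σ b)) z =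
      ∑ k ∈ Finset.univ.filter (fun k => σ k = b), ev (dX (p k)) z / ev (p k) z := by
    intro b
    have h2 : ev (gp p σ b) = fun w => ∏ k ∈ Finset.univ.filter (fun k => σ k = b), ev (p k) w :=
      funext fun w => T2a_ev_gp p σ b w
    rw [h2, logDeriv_prod (fun k _ => hz k) (fun k _ => (T2a_diff (p k)) z)]
    refine Finset.sum_congr rfl fun k _ => ?_
    rw [logDeriv_apply, (hasDerivAt_ev (p k) z).deriv]
  rw [logDeriv_div z (hne true) (hne false) (T2a_diff _ z) (T2a_diff _ z), h1, h1]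
  unfold lD
  rw [Finset.sum_filter, Finset.sum_filter, ← Finset.sum_sub_distrib]
  refine Finset.sum_congr rfl fun k _ => ?_
  unfold sg
  cases σ k <;> simp

/-- T2a. PROOF. `g b z = ev (gp p σ b) z = ∏ ev (p k) z` is analytic and `≠ 0` on the closed disc, so the circle averages of `log ‖g b‖` over both circles are `log ‖g b x‖`
(`AnalyticOnNhd.circleAverage_log_norm_of_ne_zero`). LOWER BOUND: `Ph ≥ log ‖g b‖` on the circle of radius `ℓ/2` for `b = true, false`, so the average is `≥ max_b log ‖g b x‖ = Ph x`. UPPER BOUND: along the segment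
`t ↦ x + t w`, `‖w‖ ≤ ℓ`, `R = g true / g false` has `‖R'‖ = ‖lD‖ ‖w‖ ‖R‖ ≤ δ ‖R‖`, so `‖R (x + w)‖ ≤ e^δ ‖R x‖` (`norm_le_gronwallBound_of_norm_deriv_right_le`); so
`Ph z ≤ log ‖g false z‖ + max 0 (log ‖R x‖ + δ)` on the circle of radius `ℓ`, average `≤ log ‖g false x‖ + max 0 (log ‖R x‖) + δ = Ph x + δ`. -/
theorem flat_circ {κ : Type} [Fintype κ] {p : κ → ℝ[X]} (σ : κ → Bool) (hp : ∀ k, p k ≠ 0) {x ℓ δ : ℝ}
    (hℓ : 0 < ℓ) (hδ : 0 ≤ δ) (h : ∀ z : ℂ, ‖z - x‖ ≤ ℓ → (∀ k, ev (p k) z ≠ 0) ∧ ‖lD p σ z‖ ≤ δ / ℓ) :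
    circleAverage (Ph p σ) x ℓ - circleAverage (Ph p σ) x (ℓ / 2) ≤ δ := by
  have hne : ∀ z : ℂ, ‖z - x‖ ≤ ℓ → ∀ b, ev (gp p σ b) z ≠ 0 := fun z hz b => by
    rw [T2a_ev_gp]
    exact Finset.prod_ne_zero_iff.2 fun k _ => (h z hz).1 k
  have hx : ‖(x : ℂ) - x‖ ≤ ℓ := by simpa using hℓ.le
  have havg : ∀ b, ∀ R : ℝ, 0 < R → R ≤ ℓ →
      circleAverage (fun z => Real.log ‖ev (gp p σ b) z‖) x R = Real.log ‖ev (gp p σ b) x‖ := by
    intro b R hR hRℓ
    refine AnalyticOnNhd.circleAverage_log_norm_of_ne_zero (fun z _ => (T2a_diff _).analyticAt z) ?_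
    intro z hz
    rw [abs_of_pos hR, Metric.mem_closedBall, dist_eq_norm] at hz
    exact hne z (hz.trans hRℓ) b
  have hint : ∀ b, ∀ R : ℝ, CircleIntegrable (fun z => Real.log ‖ev (gp p σ b) z‖) x R := by
    intro b R
    refine MeromorphicOn.circleIntegrable_log_norm (f := ev (gp p σ b)) fun z _ => ?_
    exact ((T2a_diff _).analyticAt z).meromorphicAt
  have hPi : ∀ R : ℝ, CircleIntegrable (Ph p σ) x R := fun R => circleIntegrable_Ph σ hp x R
  -- lower bound
  have hlow : ∀ b, Real.log ‖ev (gp p σ b) x‖ ≤ circleAverage (Ph p σ) x (ℓ / 2) := by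
    intro b
    rw [← havg b (ℓ / 2) (by linarith) (by linarith)]
    refine circleAverage_mono (hint b _) (hPi _) fun z hz => ?_
    rw [abs_of_pos (by linarith), mem_sphere_iff_norm] at hz
    have h1 := hne z (by rw [hz]; linarith) b
    unfold Ph
    refine Real.log_le_log (norm_pos_iff.2 h1) ?_
    cases b
    · exact le_max_right _ _
    · exact le_max_left _ _
  -- the quotient
  set R : ℂ → ℂ := fun w => ev (gp p σ true) w / ev (gp p σ false) w with hR
  have hRx : 0 < ‖R x‖ := norm_pos_iff.2 (div_ne_zero (hne x hx true) (hne x hx false))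
  have hgr : ∀ z : ℂ, ‖z - x‖ ≤ ℓ → ‖R z‖ ≤ ‖R x‖ * Real.exp δ := by
    intro z hz
    have hseg : ∀ t ∈ Set.Icc (0 : ℝ) 1, ‖((x : ℂ) + t * (z - x)) - x‖ ≤ ℓ := by
      intro t ht
      rw [add_sub_cancel_left, norm_mul, Complex.norm_real, Real.norm_of_nonneg ht.1]
      exact (mul_le_of_le_one_left (norm_nonneg _) ht.2).trans hz
    have hd : ∀ t ∈ Set.Icc (0 : ℝ) 1, HasDerivAt (fun t : ℝ => R ((x : ℂ) + t * (z - x)))
        (lD p σ ((x : ℂ) + t * (z - x)) * R ((x : ℂ) + t * (z - x)) * (z - x)) t := by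
      intro t ht
      have h1 := hseg t ht
      have h2 : DifferentiableAt ℂ R ((x : ℂ) + t * (z - x)) :=
        (T2a_diff _ _).div (T2a_diff _ _) (hne _ h1 false)
      have h3 : deriv R ((x : ℂ) + t * (z - x)) =
          lD p σ ((x : ℂ) + t * (z - x)) * R ((x : ℂ) + t * (z - x)) := by
        have h4 := T2a_log σ (h _ h1).1
        rw [logDeriv_apply] at h4
        exact (div_eq_iff (div_ne_zero (hne _ h1 true) (hne _ h1 false))).mp h4
      have h5 : HasDerivAt (fun t : ℝ => (x : ℂ) + t * (z - x)) (z - x) t := by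
        have h6 : HasDerivAt (fun t : ℝ => (t : ℂ)) 1 t := Complex.ofRealCLM.hasDerivAt
        simpa using (h6.mul_const (z - x)).const_add (x : ℂ)
      rw [← h3]
      exact h2.hasDerivAt.comp t h5
    have h7 := norm_le_gronwallBound_of_norm_deriv_right_le
      (f := fun t : ℝ => R ((x : ℂ) + t * (z - x))) (δ := ‖R x‖) (K := δ) (ε := 0) (a := 0) (b := 1)
      (fun t ht => (hd t ht).continuousAt.continuousWithinAt)
      (fun t ht => (hd t ⟨ht.1, ht.2.le⟩).hasDerivWithinAt) (by simp) ?_ 1 (by simp)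
    · rw [gronwallBound_ε0] at h7
      simpa using h7
    · intro t ht
      have h1 := hseg t ⟨ht.1, ht.2.le⟩
      rw [add_zero, norm_mul, norm_mul]
      have h8 : ‖lD p σ ((x : ℂ) + t * (z - x))‖ * ‖z - x‖ ≤ δ := by
        refine (mul_le_mul (h _ h1).2 hz (norm_nonneg _) (by positivity)).trans (le_of_eq ?_)
        field_simp
      nlinarith [norm_nonneg (R ((x : ℂ) + t * (z - x)))]
  -- upper bound
  set m : ℝ := max 0 (Real.log ‖R x‖ + δ) with hm
  have hup : circleAverage (Ph p σ) x ℓ ≤ Real.log ‖ev (gp p σ false) x‖ + m := by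
    have h1 : circleAverage (fun z => Real.log ‖ev (gp p σ false) z‖ + m) x ℓ =
        Real.log ‖ev (gp p σ false) x‖ + m := by
      rw [circleAverage_fun_add (hint false ℓ) (circleIntegrable_const m (x : ℂ) ℓ),
        circleAverage_const, havg false ℓ hℓ le_rfl]
    rw [← h1]
    refine circleAverage_mono (hPi ℓ) ((hint false ℓ).add (circleIntegrable_const m (x : ℂ) ℓ)) ?_
    intro z hz
    rw [abs_of_pos hℓ, mem_sphere_iff_norm] at hz
    have h2 : 0 < ‖ev (gp p σ false) z‖ := norm_pos_iff.2 (hne z hz.le false)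
    have h3 : 0 < ‖ev (gp p σ true) z‖ := norm_pos_iff.2 (hne z hz.le true)
    have h4 := hgr z hz.le
    have h5 : ‖R z‖ = ‖ev (gp p σ true) z‖ / ‖ev (gp p σ false) z‖ := by
      simp only [hR]
      rw [norm_div]
    have h6 : 0 < ‖R z‖ := by rw [h5]; positivity
    unfold Ph
    rcases max_choice ‖ev (gp p σ true) z‖ ‖ev (gp p σ false) z‖ with h7 | h7 <;> rw [h7]
    · have h8 : Real.log ‖R z‖ ≤ Real.log ‖R x‖ + δ := by
        have := Real.log_le_log h6 h4
        rwa [Real.log_mul hRx.ne' (Real.exp_pos _).ne', Real.log_exp] at this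
      rw [h5, Real.log_div h3.ne' h2.ne'] at h8
      have h9 := le_max_right 0 (Real.log ‖R x‖ + δ)
      linarith
    · have h9 := le_max_left 0 (Real.log ‖R x‖ + δ)
      linarith
  have hRl : Real.log ‖R x‖ = Real.log ‖ev (gp p σ true) x‖ - Real.log ‖ev (gp p σ false) x‖ := by
    simp only [hR]
    rw [norm_div, Real.log_div (norm_pos_iff.2 (hne x hx true)).ne' (norm_pos_iff.2 (hne x hx false)).ne']
  have ht := hlow true
  have hf := hlow false
  have hm' : m ≤ max 0 (Real.log ‖R x‖) + δ := by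
    refine max_le (by positivity) ?_
    linarith [le_max_right 0 (Real.log ‖R x‖)]
  rcases max_choice 0 (Real.log ‖R x‖) with h1 | h1 <;> rw [h1] at hm'
  · linarith
  · linarith

end Pool.Agent.MP_c11b14_lc.OP
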