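import Pool.Agent.Lib.MP_c11b14_lc.TB.T1
import Pool.Agent.Lib.MP_c11b14_lc.TB.T2a
import Pool.Agent.Lib.MP_c11b14_lc.OP.C3

set_option autoImplicit false

/-! T2: a good window, in the mean over a set of parameters. -/

namespace Pool.Agent.MP_c11b14_lc.OP

open Polynomial Complex MeasureTheory Real
open scoped ENNReal

/-- T2b. PROOF. `bottom_majS` at the centre `x` with `ℓ/2`, `T2a`: `(δ + 6 - log β)/log 2 ≤ (7 - log β)/log 2 ≤ 14 (1 - log β)` (`log 2 ≥ 1/2`, `log β ≤ 0`). -/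
theorem flat_majS {κ : Type} [Fintype κ] {p : κ → ℝ[X]} {σ : κ → Bool} (hp : ∀ k, p k ≠ 0) {x ℓ : ℝ}
    (hℓ : 0 < ℓ) (hℓ1 : ℓ ≤ 1) (h : ∀ z : ℂ, ‖z - x‖ ≤ ℓ → (∀ k, ev (p k) z ≠ 0) ∧ ‖lD p σ z‖ ≤ 1 / ℓ) :
    MajS (fun lm => cz p σ lm (Set.Icc (x - ℓ / 2) (x + ℓ / 2)))
      (fun β => ENNReal.ofReal (14 * (β * (1 - Real.log β)))) := by
  have hc := flat_circ σ hp hℓ zero_le_one h
  refine (bottom_majS σ hp (c := x) (ℓ := ℓ / 2) (by linarith) (by linarith)).mono' (fun _ _ _ => le_rfl) ?_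
  intro β h0 h1
  refine ENNReal.ofReal_le_ofReal ?_
  have h2 : 2 * (ℓ / 2) = ℓ := by ring
  rw [h2]
  have hl2 : 1 / 2 < Real.log 2 := by
    have := Real.log_two_gt_d9
    linarith
  have hlb : Real.log β ≤ 0 := Real.log_nonpos h0.le h1
  have h3 : (circleAverage (Ph p σ) x ℓ - circleAverage (Ph p σ) x (ℓ / 2) + 6 - Real.log β) / Real.log 2 ≤
      14 * (1 - Real.log β) := by
    rw [div_le_iff₀ (by linarith)]
    have h4 : circleAverage (Ph p σ) x ℓ - circleAverage (Ph p σ) x (ℓ / 2) + 6 - Real.log β ≤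
        7 * (1 - Real.log β) := by linarith
    refine h4.trans ?_
    have h5 : 0 ≤ 14 * (1 - Real.log β) := by linarith
    nlinarith [mul_le_mul_of_nonneg_left hl2.le h5]
  calc β * ((circleAverage (Ph p σ) x ℓ - circleAverage (Ph p σ) x (ℓ / 2) + 6 - Real.log β) / Real.log 2)
      ≤ β * (14 * (1 - Real.log β)) := mul_le_mul_of_nonneg_left h3 h0.le
    _ = 14 * (β * (1 - Real.log β)) := by ring

/-- T2c. PROOF. As `C2.good_maj`: `a` from `good_disc`; `ε₁ = min ε₀ (1/(2 c₅))`. Steep (`c₅/ℓ mass < |a|`): `steep_count`, `MajS.const 1`, `β ≤ 14 β (1 - log β)`. Flat: `‖lD‖ ≤ 2 c₅/ℓ mass ≤ 1/ℓ` on the disc: T2b. -/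
theorem good_majS : ∃ ε₁ : ℝ, 0 < ε₁ ∧ ∀ (κ : Type) [Fintype κ] (p : κ → ℝ[X]) (σ : κ → Bool),
    (∀ k, p k ≠ 0) → ∀ (ℓ x : ℝ), 0 < ℓ → ℓ ≤ 1 → mass p ℓ x ≤ ε₁ →
    MajS (fun lm => cz p σ lm (Set.Icc (x - ℓ / 2) (x + ℓ / 2)))
      (fun β => ENNReal.ofReal (14 * (β * (1 - Real.log β)))) := by
  obtain ⟨ε₀, c₅, hε₀, hc₅, hG⟩ := good_disc
  refine ⟨min ε₀ (1 / (2 * c₅)), lt_min hε₀ (by positivity), ?_⟩
  intro κ _ p σ hp ℓ x hℓ hℓ1 hm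
  obtain ⟨a, ha, _⟩ := hG κ p σ hp ℓ x hℓ (hm.trans (min_le_left _ _))
  have hm2 : mass p ℓ x ≤ 1 / (2 * c₅) := hm.trans (min_le_right _ _)
  have hz : ∀ u ∈ Set.Icc (x - ℓ / 2) (x + ℓ / 2), ‖(u : ℂ) - x‖ ≤ 4 * ℓ := by
    intro u hu
    rw [← ofReal_sub, Complex.norm_real, Real.norm_eq_abs, abs_le]
    constructor <;> linarith [hu.1, hu.2]
  have hre : ∀ u ∈ Set.Icc (x - ℓ / 2) (x + ℓ / 2),
      |(lD p σ (u : ℂ)).re - a| ≤ c₅ / ℓ * mass p ℓ x := by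
    intro u hu
    have h1 := (ha u (hz u hu)).2
    have h2 := Complex.abs_re_le_norm (lD p σ (u : ℂ) - a)
    rw [sub_re, ofReal_re] at h2
    exact h2.trans h1
  by_cases hcase : c₅ / ℓ * mass p ℓ x < |a|
  · have hs : ∃ η : ℝ, (η = 1 ∨ η = -1) ∧ η * a = |a| := by
      rcases le_total 0 a with h0 | h0
      · exact ⟨1, Or.inl rfl, by rw [abs_of_nonneg h0, one_mul]⟩
      · exact ⟨-1, Or.inr rfl, by rw [abs_of_nonpos h0]; ring⟩
    obtain ⟨η, hη, hηa⟩ := hs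
    refine (MajS.const 1).mono' ?_ ?_
    · intro lm h1 _
      refine steep_count hη ?_ (by linarith)
      intro u hu
      refine ⟨(ha u (hz u hu)).1, ?_⟩
      have h2 := abs_le.1 (hre u hu)
      rcases hη with rfl | rfl
      · linarith [h2.1]
      · linarith [h2.2]
    · intro β h0 h1
      rw [one_mul]
      refine ENNReal.ofReal_le_ofReal ?_
      have hlb : Real.log β ≤ 0 := Real.log_nonpos h0.le h1
      nlinarith [mul_nonneg h0.le (neg_nonneg.2 hlb)]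
  · have hcase' := not_lt.1 hcase
    refine flat_majS hp hℓ hℓ1 ?_
    intro z hz1
    have hz4 : ‖z - x‖ ≤ 4 * ℓ := by linarith
    obtain ⟨h1, h2⟩ := ha z hz4
    refine ⟨h1, ?_⟩
    have h3 : ‖lD p σ z‖ ≤ ‖lD p σ z - a‖ + ‖(a : ℂ)‖ := by
      calc ‖lD p σ z‖ = ‖(lD p σ z - a) + a‖ := by rw [sub_add_cancel]
        _ ≤ _ := norm_add_le _ _
    rw [Complex.norm_real, Real.norm_eq_abs] at h3
    have h6 : c₅ * mass p ℓ x ≤ 1 / 2 := by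
      calc c₅ * mass p ℓ x ≤ c₅ * (1 / (2 * c₅)) := mul_le_mul_of_nonneg_left hm2 hc₅.le
        _ = 1 / 2 := by field_simp
    have h7 : c₅ / ℓ * mass p ℓ x ≤ 1 / 2 / ℓ := by
      calc c₅ / ℓ * mass p ℓ x = c₅ * mass p ℓ x / ℓ := by ring
        _ ≤ 1 / 2 / ℓ := by gcongr
    have h8 : (1 / 2 / ℓ : ℝ) + 1 / 2 / ℓ = 1 / ℓ := by ring
    linarith

/-- T2d. PROOF. As `C3.level_zero` (copy): the flat intervals (`n k = 0`) have the majorants `flat_count` (`Maj.toS`) AND T2b (`ℓ = 1`, `x = k + 1/2`, `‖lD‖ ≤ 2 c₅ mass ≤ 1`), `MajS.inf`; `MajS.tsum`;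
the steep ones: `steep_level` (`MajS.const`). -/
theorem level_zeroS : ∃ ε₁ c₇ : ℝ, 0 < ε₁ ∧ 0 < c₇ ∧ ∀ (κ : Type) [Fintype κ] (p : κ → ℝ[X])
    (σ : κ → Bool), (∀ k, p k ≠ 0) → ∀ (B : Finset ℤ),
    (∀ k : ℤ, k ∉ B → mass p 1 ((k : ℝ) + 1 / 2) ≤ ε₁) →
    MajS (fun lm => cz p σ lm {u | ⌊u⌋ ∉ B})
      (fun β => (∑' k : ℤ, min (ENNReal.ofReal (c₇ * mass p 1 ((k : ℝ) + 1 / 2)))
        (ENNReal.ofReal (14 * (β * (1 - Real.log β))))) + (B.card + 1) * ENNReal.ofReal β) := by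
  classical
  obtain ⟨ε₀, c₅, hε₀, hc₅, hgd⟩ := good_disc
  refine ⟨min ε₀ (1 / (8 * c₅)), 4 * c₅, lt_min hε₀ (by positivity), by positivity, ?_⟩
  intro κ _ p σ hp B hB
  have hex : ∀ k : ℤ, ∃ n : ℤ, k ∉ B → ∀ z : ℂ, ‖z - ((k : ℝ) + 1 / 2 : ℝ)‖ ≤ 4 →
      (∀ i, ev (p i) z ≠ 0) ∧ ‖lD p σ z - (n : ℂ)‖ ≤ 2 * c₅ * mass p 1 ((k : ℝ) + 1 / 2) := by
    intro k
    by_cases hk : k ∈ B
    · exact ⟨0, fun h => absurd hk h⟩
    · have hm := hB k hk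
      obtain ⟨a, h1, h2⟩ := hgd κ p σ hp 1 ((k : ℝ) + 1 / 2) one_pos (hm.trans (min_le_left _ _))
      obtain ⟨n, hn⟩ := h2 rfl
      refine ⟨n, fun _ z hz => ?_⟩
      obtain ⟨h3, h4⟩ := h1 z (by rw [mul_one]; exact hz)
      refine ⟨h3, ?_⟩
      rw [div_one] at h4
      have h5 : ‖(a : ℂ) - (n : ℂ)‖ ≤ c₅ * mass p 1 ((k : ℝ) + 1 / 2) := by
        have e1 : (a : ℂ) - (n : ℂ) = ((a - (n : ℝ) : ℝ) : ℂ) := by push_cast; ring
        rw [e1, Complex.norm_real, Real.norm_eq_abs]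
        exact hn
      have e2 : lD p σ z - (n : ℂ) = (lD p σ z - a) + ((a : ℂ) - (n : ℂ)) := by ring
      rw [e2]
      refine (norm_add_le _ _).trans ?_
      linarith
  choose n hn using hex
  have hn' : ∀ k : ℤ, k ∉ B → ∀ z : ℂ, ‖z - ((k : ℝ) + 1 / 2 : ℝ)‖ ≤ 4 →
      (∀ i, ev (p i) z ≠ 0) ∧ ‖lD p σ z - (n k : ℂ)‖ ≤ 1 / 4 := by
    intro k hk z hz
    obtain ⟨h1, h2⟩ := hn k hk z hz
    refine ⟨h1, h2.trans ?_⟩
    have h3 : mass p 1 ((k : ℝ) + 1 / 2) ≤ 1 / (8 * c₅) := (hB k hk).trans (min_le_right _ _)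
    rw [le_div_iff₀ (by positivity)] at h3
    linarith
  -- the flat intervals
  have hflat : MajS (fun lm => ∑' k : ℤ, if k ∉ B ∧ n k = 0 then
      cz p σ lm (Set.Icc (k : ℝ) ((k : ℝ) + 1)) else 0)
      (fun β => ∑' k : ℤ, min (ENNReal.ofReal (4 * c₅ * mass p 1 ((k : ℝ) + 1 / 2)))
        (ENNReal.ofReal (14 * (β * (1 - Real.log β))))) := by
    apply MajS.tsum
    intro k
    by_cases hk : k ∉ B ∧ n k = 0
    · have h1 : Maj (fun lm => cz p σ lm (Set.Icc (k : ℝ) ((k : ℝ) + 1)))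
          (ENNReal.ofReal (2 * (2 * c₅ * mass p 1 ((k : ℝ) + 1 / 2)) * (((k : ℝ) + 1) - k))) := by
        refine flat_count (by linarith) (fun u hu => ?_)
        obtain ⟨h2, h3⟩ := hn k hk.1 (u : ℂ) (by
          rw [← Complex.ofReal_sub, Complex.norm_real, Real.norm_eq_abs, abs_le]
          constructor <;> linarith [hu.1, hu.2])
        refine ⟨h2, ?_⟩
        rw [hk.2, Int.cast_zero, sub_zero] at h3
        exact (Complex.abs_re_le_norm _).trans h3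
      have h2 : MajS (fun lm => cz p σ lm (Set.Icc ((((k : ℝ) + 1 / 2 : ℝ)) - 1 / 2) (((k : ℝ) + 1 / 2 : ℝ) + 1 / 2)))
          (fun β => ENNReal.ofReal (14 * (β * (1 - Real.log β)))) := by
        refine flat_majS hp one_pos le_rfl ?_
        intro z hz
        obtain ⟨h3, h4⟩ := hn' k hk.1 z (by linarith)
        refine ⟨h3, ?_⟩
        rw [hk.2, Int.cast_zero, sub_zero] at h4
        rw [div_one]
        linarith
      have e1 : (((k : ℝ) + 1 / 2 : ℝ)) - 1 / 2 = (k : ℝ) := by ring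
      have e2 : (((k : ℝ) + 1 / 2 : ℝ)) + 1 / 2 = (k : ℝ) + 1 := by ring
      rw [e1, e2] at h2
      refine (h1.toS.inf h2).mono' (fun lm _ _ => ?_) (fun β _ _ => le_of_eq ?_)
      · rw [if_pos hk]
      · congr 2
        ring
    · refine (MajS.const 0).mono' (fun lm _ _ => ?_) (fun β _ _ => by simp)
      rw [if_neg hk]
  refine (hflat.add (MajS.const ((B.card : ℝ≥0∞) + 1))).mono' (fun lm h1 h2 => ?_) (fun β _ _ => le_rfl)
  have hsub : {u : ℝ | ⌊u⌋ ∉ B} ⊆ {u : ℝ | ⌊u⌋ ∉ B ∧ n ⌊u⌋ ≠ 0} ∪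
      ⋃ k : ℤ, (if k ∉ B ∧ n k = 0 then Set.Icc (k : ℝ) ((k : ℝ) + 1) else ∅) := by
    intro u hu
    by_cases hu0 : n ⌊u⌋ = 0
    · right
      refine Set.mem_iUnion.2 ⟨⌊u⌋, ?_⟩
      rw [if_pos ⟨hu, hu0⟩]
      exact ⟨Int.floor_le u, (Int.lt_floor_add_one u).le⟩
    · left
      exact ⟨hu, hu0⟩
  calc cz p σ lm {u : ℝ | ⌊u⌋ ∉ B} ≤ _ := cz_mono p σ lm hsub
    _ ≤ cz p σ lm {u : ℝ | ⌊u⌋ ∉ B ∧ n ⌊u⌋ ≠ 0} +
        cz p σ lm (⋃ k : ℤ, (if k ∉ B ∧ n k = 0 then Set.Icc (k : ℝ) ((k : ℝ) + 1) else ∅)) :=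
      cz_union_le p σ lm _ _
    _ ≤ ((B.card : ℝ≥0∞) + 1) + ∑' k : ℤ, cz p σ lm
        (if k ∉ B ∧ n k = 0 then Set.Icc (k : ℝ) ((k : ℝ) + 1) else ∅) :=
      add_le_add (steep_level B n hn' (by linarith)) (cz_iUnion_le p σ lm _)
    _ ≤ ((B.card : ℝ≥0∞) + 1) + ∑' k : ℤ, (if k ∉ B ∧ n k = 0 then
          cz p σ lm (Set.Icc (k : ℝ) ((k : ℝ) + 1)) else 0) := by
        refine add_le_add le_rfl (ENNReal.tsum_le_tsum fun k => ?_)
        by_cases hk : k ∉ B ∧ n k = 0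
        · rw [if_pos hk, if_pos hk]
        · rw [if_neg hk, if_neg hk]
          refine le_of_eq ?_
          unfold cz zs
          simp
    _ = _ := add_comm _ _

end Pool.Agent.MP_c11b14_lc.OP
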