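import Pool.Agent.Lib.MP_c11b14_lc.TB.T4b
import Pool.Agent.Lib.MP_c11b14_lc.OP.C4

set_option autoImplicit false

/-! T4: far from the corners of the Newton polygons the speed is exponentially small. -/

namespace Pool.Agent.MP_c11b14_lc.OP

open Polynomial Complex MeasureTheory Real
open scoped ENNReal

theorem T4_sp_le {p : ℝ[X]} (hp : p ≠ 0) {s : Finset ℝ} (hs : ∀ u ∈ cor p, u ∈ s) {u D : ℝ} (hD : 2 ≤ D)
    (h : ∀ v ∈ s, D ≤ |v - u|) : sp p 1 u ≤ ∑ v ∈ s, 5 * Real.exp (-|v - u|) := by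
  rcases s.eq_empty_or_nonempty with h0 | h0
  · subst h0
    rw [Finset.sum_empty]
    have h1 : ∀ E : ℝ, 2 ≤ E → sp p 1 u ≤ 5 * Real.exp (-E) := fun E hE =>
      sp_far hp hE fun v hv => absurd (hs v hv) (Finset.notMem_empty v)
    have h2 : Filter.Tendsto (fun E : ℝ => 5 * Real.exp (-E)) Filter.atTop (nhds (5 * 0)) :=
      (Real.tendsto_exp_neg_atTop_nhds_zero).const_mul 5
    rw [mul_zero] at h2
    exact ge_of_tendsto h2 (Filter.eventually_atTop.2 ⟨2, fun E hE => h1 E hE⟩)
  · obtain ⟨v₀, hv₀, hmin⟩ := s.exists_min_image (fun v => |v - u|) h0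
    have h1 : sp p 1 u ≤ 5 * Real.exp (-|v₀ - u|) :=
      sp_far hp (hD.trans (h v₀ hv₀)) fun v hv => hmin v (hs v hv)
    refine h1.trans ?_
    exact Finset.single_le_sum (f := fun v => 5 * Real.exp (-|v - u|)) (fun v _ => by positivity) hv₀

theorem T4_tail (v D : ℝ) (hD : 0 ≤ D) : ∫⁻ u, ({u : ℝ | D ≤ |v - u|}).indicator
    (fun u => ENNReal.ofReal (5 * Real.exp (-|v - u|))) u ≤ ENNReal.ofReal (10 * Real.exp (-D)) := by
  have hset : {u : ℝ | D ≤ |v - u|} ⊆ Set.Iic (v - D) ∪ Set.Ici (v + D) := by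
    intro u hu
    simp only [Set.mem_ofPred_eq] at hu
    rcases le_abs.1 hu with h | h
    · exact Or.inl (by simp only [Set.mem_Iic]; linarith)
    · exact Or.inr (by simp only [Set.mem_Ici]; linarith)
  have hms : MeasurableSet {u : ℝ | D ≤ |v - u|} :=
    measurableSet_le measurable_const (by fun_prop)
  rw [lintegral_indicator hms]
  refine (lintegral_mono_set hset).trans ?_
  refine (lintegral_union_le _ _ _).trans ?_
  have h1 : ∫⁻ u in Set.Iic (v - D), ENNReal.ofReal (5 * Real.exp (-|v - u|)) =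
      ENNReal.ofReal (5 * Real.exp (-D)) := by
    have e1 : ∫⁻ u in Set.Iic (v - D), ENNReal.ofReal (5 * Real.exp (-|v - u|)) =
        ∫⁻ u in Set.Iic (v - D), ENNReal.ofReal (5 * Real.exp (-v) * Real.exp u) := by
      refine setLIntegral_congr_fun measurableSet_Iic fun u hu => ?_
      simp only [Set.mem_Iic] at hu
      congr 1
      rw [abs_of_nonneg (by linarith), mul_assoc, ← Real.exp_add]
      congr 2
      ring
    rw [e1, ← ofReal_integral_eq_lintegral_ofReal]
    · rw [integral_const_mul, integral_exp_Iic, mul_assoc, ← Real.exp_add]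
      congr 3
      ring
    · exact (integrableOn_exp_Iic _).const_mul _
    · exact Filter.Eventually.of_forall fun u => by positivity
  have h2 : ∫⁻ u in Set.Ici (v + D), ENNReal.ofReal (5 * Real.exp (-|v - u|)) =
      ENNReal.ofReal (5 * Real.exp (-D)) := by
    have e1 : ∫⁻ u in Set.Ici (v + D), ENNReal.ofReal (5 * Real.exp (-|v - u|)) =
        ∫⁻ u in Set.Ioi (v + D), ENNReal.ofReal (5 * Real.exp v * Real.exp (-u)) := by
      rw [setLIntegral_congr (Ioi_ae_eq_Ici (a := v + D)).symm]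
      refine setLIntegral_congr_fun measurableSet_Ioi fun u hu => ?_
      simp only [Set.mem_Ioi] at hu
      congr 1
      rw [abs_of_nonpos (by linarith), mul_assoc, ← Real.exp_add]
      congr 2
      ring
    rw [e1, ← ofReal_integral_eq_lintegral_ofReal]
    · rw [integral_const_mul, integral_exp_neg_Ioi, mul_assoc, ← Real.exp_add]
      congr 3
      ring
    · exact (integrableOn_exp_neg_Ioi _).const_mul _
    · exact Filter.Eventually.of_forall fun u => by positivity
  rw [h1, h2, ← ENNReal.ofReal_add (by positivity) (by positivity)]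
  exact ENNReal.ofReal_le_ofReal (by linarith)

/-- The integers `k` with `|k + 1/2 - v| ≤ D + 5`. -/
noncomputable def T4_near (v D : ℝ) : Finset ℤ := Finset.Icc ⌈v - (D + 11 / 2)⌉ ⌊v + (D + 9 / 2)⌋

theorem T4_mem_near {v D : ℝ} {k : ℤ} : k ∈ T4_near v D ↔ |(k : ℝ) + 1 / 2 - v| ≤ D + 5 := by
  unfold T4_near
  rw [Finset.mem_Icc, Int.ceil_le, Int.le_floor, abs_le]
  constructor
  · rintro ⟨h1, h2⟩; constructor <;> linarith
  · rintro ⟨h1, h2⟩; constructor <;> linarith

theorem T4_card_near {v D : ℝ} (hD : 2 ≤ D) : ((T4_near v D).card : ℝ) ≤ 15 / 2 * D := by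
  unfold T4_near
  rw [Int.card_Icc]
  have h1 := Int.le_ceil (v - (D + 11 / 2))
  have h2 := Int.floor_le (v + (D + 9 / 2))
  rcases le_or_gt 0 (⌊v + (D + 9 / 2)⌋ + 1 - ⌈v - (D + 11 / 2)⌉) with h | h
  · have h3 : (((⌊v + (D + 9 / 2)⌋ + 1 - ⌈v - (D + 11 / 2)⌉).toNat : ℤ) : ℝ) =
        ((⌊v + (D + 9 / 2)⌋ + 1 - ⌈v - (D + 11 / 2)⌉ : ℤ) : ℝ) := by
      rw [Int.toNat_of_nonneg h]
    rw [Int.cast_natCast] at h3
    rw [h3]
    push_cast
    linarith
  · rw [Int.toNat_of_nonpos h.le]
    simp only [CharP.cast_eq_zero]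
    linarith

/-- T4d. PROOF. For one `p` with the finite set `s` of corners (T4a; `s = ∅` if `p` is a monomial: `sp = 0` by T4c with `D → ∞`): at a point `u` of distance `> D` from `s` let `E` be the distance to `s`:
`sp p 1 u ≤ 5 e^{-E} ≤ 5 ∑_{v ∈ s} e^{-|u - v|}`; `∫_{|u - v| ≥ D} e^{-|u-v|} du = 2 e^{-D}`. `N` = the set of all integers `k` whose window `[k + 1/2 - 5, k + 1/2 + 5]` meets `[v - D, v + D]` for a corner `v` of a
`p i`: `|k + 1/2 - v| ≤ D + 5`: at most `2 D + 11` integers for every `v`. For `k ∉ N` the mass is `≤ ∑_i ∑_{v} ∫_{window k ∩ {|u-v| ≥ D}} 5 e^{-|u-v|} du`, and the windows overlap at most `11` times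
(`C4_tsum_indicator`). -/
theorem far_mass : ∃ C : ℝ, 0 < C ∧ ∀ (κ : Type) [Fintype κ] (p : κ → ℝ[X]), (∀ k, p k ≠ 0) → ∀ D : ℝ, 2 ≤ D →
    ∃ N : Finset ℤ, (N.card : ℝ) ≤ C * tot p * D ∧
      ∑' k : ℤ, (if k ∈ N then 0 else ENNReal.ofReal (mass p 1 ((k : ℝ) + 1 / 2))) ≤
        ENNReal.ofReal (C * tot p * Real.exp (-D)) := by
  classical
  obtain ⟨c₁, hc₁, hT⟩ := total
  refine ⟨110, by norm_num, ?_⟩
  intro κ _ p hp D hD
  choose s hs hcard using fun i => cor_card (hp i)
  have htot0 : (0 : ℝ) ≤ tot p := by positivity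
  refine ⟨Finset.univ.biUnion fun i => (s i).biUnion fun v => T4_near v D, ?_, ?_⟩
  · have h1 : ((Finset.univ.biUnion fun i => (s i).biUnion fun v => T4_near v D).card : ℝ) ≤
        ∑ i, ∑ v ∈ s i, ((T4_near v D).card : ℝ) := by
      have h2 : (Finset.univ.biUnion fun i => (s i).biUnion fun v => T4_near v D).card ≤
          ∑ i, ∑ v ∈ s i, (T4_near v D).card :=
        Finset.card_biUnion_le.trans (Finset.sum_le_sum fun i _ => Finset.card_biUnion_le)
      exact_mod_cast h2
    refine h1.trans ?_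
    have h3 : ∑ i, ∑ v ∈ s i, ((T4_near v D).card : ℝ) ≤ ∑ i, ((p i).support.card : ℝ) * (15 / 2 * D) := by
      refine Finset.sum_le_sum fun i _ => ?_
      refine (Finset.sum_le_card_nsmul _ _ (15 / 2 * D) fun v _ => T4_card_near hD).trans ?_
      rw [nsmul_eq_mul]
      have := hcard i
      gcongr
    refine h3.trans ?_
    rw [← Finset.sum_mul]
    have h4 : ∑ i, ((p i).support.card : ℝ) = tot p := by
      unfold tot; push_cast; rfl
    rw [h4]
    nlinarith
  · have hle : ∀ k : ℤ, ((k : ℝ) + 1 / 2) - 5 * 1 ≤ ((k : ℝ) + 1 / 2) + 5 * 1 := fun k => by linarith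
    have hnn : ∀ (i : κ) (k : ℤ), 0 ≤ ∫ u in (((k : ℝ) + 1 / 2) - 5 * 1)..(((k : ℝ) + 1 / 2) + 5 * 1),
        sp (p i) 1 u := fun i k =>
      intervalIntegral.integral_nonneg (hle k) fun u _ => (hT (p i) (hp i) 1 one_pos).2.2.1 u
    have key : ∀ k : ℤ, ENNReal.ofReal (mass p 1 ((k : ℝ) + 1 / 2)) =
        ∑ i, ∫⁻ u, (Set.Ioc (((k : ℝ) + 1 / 2) - 5 * 1) (((k : ℝ) + 1 / 2) + 5 * 1)).indicator
          (fun u => ENNReal.ofReal (sp (p i) 1 u)) u := by
      intro k
      unfold mass
      rw [ENNReal.ofReal_sum_of_nonneg fun i _ => hnn i k]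
      refine Finset.sum_congr rfl fun i _ => ?_
      rw [intervalIntegral.integral_of_le (hle k), lintegral_indicator measurableSet_Ioc,
        ofReal_integral_eq_lintegral_ofReal ((hT (p i) (hp i) 1 one_pos).2.1.integrableOn)]
      exact Filter.Eventually.of_forall fun u => (hT (p i) (hp i) 1 one_pos).2.2.1 u
    set g : κ → ℝ → ℝ≥0∞ := fun i u => ∑ v ∈ s i, ({u : ℝ | D ≤ |v - u|}).indicator
      (fun u => ENNReal.ofReal (5 * Real.exp (-|v - u|))) u with hgdef
    have hgm : ∀ i, Measurable (g i) := by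
      intro i
      refine Finset.measurable_sum _ fun v _ => ?_
      refine Measurable.indicator (by fun_prop) ?_
      exact measurableSet_le measurable_const (by fun_prop)
    have hterm : ∀ k : ℤ, (if k ∈ (Finset.univ.biUnion fun i => (s i).biUnion fun v => T4_near v D) then 0
        else ENNReal.ofReal (mass p 1 ((k : ℝ) + 1 / 2))) ≤
        ∑ i, ∫⁻ u, (Set.Ioc (ctr 0 k - 5 * (1 / 2 ^ 0)) (ctr 0 k + 5 * (1 / 2 ^ 0))).indicator (g i) u := by
      intro k
      split_ifs with hk
      · exact zero_le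
      · rw [key k]
        refine Finset.sum_le_sum fun i _ => lintegral_mono fun u => ?_
        have hctr : ctr 0 k = (k : ℝ) + 1 / 2 := by unfold ctr; simp
        rw [hctr, pow_zero, div_one]
        refine Set.indicator_le_indicator' fun hu => ?_
        have hfar : ∀ v ∈ s i, D ≤ |v - u| := by
          intro v hv
          by_contra hcon
          push Not at hcon
          apply hk
          rw [Finset.mem_biUnion]
          refine ⟨i, Finset.mem_univ i, ?_⟩
          rw [Finset.mem_biUnion]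
          refine ⟨v, hv, ?_⟩
          rw [T4_mem_near]
          obtain ⟨hu1, hu2⟩ := hu
          obtain ⟨hc1, hc2⟩ := abs_lt.1 hcon
          rw [abs_le]
          constructor <;> linarith
        have h5 : g i u = ∑ v ∈ s i, ENNReal.ofReal (5 * Real.exp (-|v - u|)) := by
          rw [hgdef]
          refine Finset.sum_congr rfl fun v hv => ?_
          exact Set.indicator_of_mem (s := {u : ℝ | D ≤ |v - u|}) (hfar v hv) _
        rw [h5, ← ENNReal.ofReal_sum_of_nonneg fun v _ => by positivity]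
        exact ENNReal.ofReal_le_ofReal (T4_sp_le (hp i) (hs i) hD hfar)
    refine (ENNReal.tsum_le_tsum hterm).trans ?_
    rw [Summable.tsum_finsetSum fun i _ => ENNReal.summable]
    have hi : ∀ i : κ, ∑' k : ℤ, ∫⁻ u, (Set.Ioc (ctr 0 k - 5 * (1 / 2 ^ 0))
        (ctr 0 k + 5 * (1 / 2 ^ 0))).indicator (g i) u ≤
        ENNReal.ofReal (110 * (p i).support.card * Real.exp (-D)) := by
      intro i
      rw [← lintegral_tsum fun k => ((hgm i).indicator measurableSet_Ioc).aemeasurable]
      calc ∫⁻ u, ∑' k : ℤ, (Set.Ioc (ctr 0 k - 5 * (1 / 2 ^ 0))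
            (ctr 0 k + 5 * (1 / 2 ^ 0))).indicator (g i) u
          ≤ ∫⁻ u, 11 * g i u := lintegral_mono fun u => C4_tsum_indicator 0 _ u
        _ = 11 * ∑ v ∈ s i, ∫⁻ u, ({u : ℝ | D ≤ |v - u|}).indicator
              (fun u => ENNReal.ofReal (5 * Real.exp (-|v - u|))) u := by
            rw [lintegral_const_mul _ (hgm i)]
            congr 1
            rw [hgdef]
            refine lintegral_finsetSum _ fun v _ => ?_
            refine Measurable.indicator (by fun_prop) ?_
            exact measurableSet_le measurable_const (by fun_prop)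
        _ ≤ 11 * ∑ _v ∈ s i, ENNReal.ofReal (10 * Real.exp (-D)) := by
            gcongr with v _
            exact T4_tail v D (by linarith)
        _ ≤ 11 * ((p i).support.card * ENNReal.ofReal (10 * Real.exp (-D))) := by
            rw [Finset.sum_const, nsmul_eq_mul]
            have := hcard i
            gcongr
        _ = ENNReal.ofReal (110 * (p i).support.card * Real.exp (-D)) := by
            rw [← ENNReal.ofReal_natCast, ← ENNReal.ofReal_mul (by positivity)]
            have h11 : (11 : ℝ≥0∞) = ENNReal.ofReal 11 := by norm_num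
            rw [h11, ← ENNReal.ofReal_mul (by norm_num)]
            congr 1
            ring
    calc _ ≤ ∑ i, ENNReal.ofReal (110 * (p i).support.card * Real.exp (-D)) :=
          Finset.sum_le_sum fun i _ => hi i
      _ = ENNReal.ofReal (110 * tot p * Real.exp (-D)) := by
          rw [← ENNReal.ofReal_sum_of_nonneg fun i _ => by positivity, ← Finset.sum_mul,
            ← Finset.mul_sum]
          unfold tot
          push_cast
          rfl

/-- T4e. PROOF. `far_mass` with `D = 2 - log β`: the `k ∈ N` cost `14 β (1 - log β)` each, `N.card ≤ C tot (2 - log β) ≤ 2 C tot (1 - log β)`; the others `c₇` times the mass: `≤ c₇ C tot e^{-2} β`. -/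
theorem min_sum (c₇ : ℝ) (h7 : 0 < c₇) : ∃ C : ℝ, 0 < C ∧ ∀ (κ : Type) [Fintype κ] (p : κ → ℝ[X]), (∀ k, p k ≠ 0) →
    ∀ β : ℝ, 0 < β → β ≤ 1 →
      ∑' k : ℤ, min (ENNReal.ofReal (c₇ * mass p 1 ((k : ℝ) + 1 / 2)))
        (ENNReal.ofReal (14 * (β * (1 - Real.log β)))) ≤
      ENNReal.ofReal (C * tot p * β * (1 - Real.log β) ^ 2) := by
  classical
  obtain ⟨C₀, hC₀, hF⟩ := far_mass
  refine ⟨28 * C₀ + c₇ * C₀, by positivity, ?_⟩
  intro κ _ p hp β hβ hβ1
  have hlog : Real.log β ≤ 0 := Real.log_nonpos hβ.le hβ1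
  set L : ℝ := 1 - Real.log β with hL
  have hL1 : 1 ≤ L := by rw [hL]; linarith
  obtain ⟨N, hN1, hN2⟩ := hF κ p hp (2 - Real.log β) (by linarith)
  have htot0 : (0 : ℝ) ≤ tot p := by positivity
  have hterm : ∀ k : ℤ, min (ENNReal.ofReal (c₇ * mass p 1 ((k : ℝ) + 1 / 2)))
        (ENNReal.ofReal (14 * (β * L))) ≤
      (if k ∈ N then ENNReal.ofReal (14 * (β * L)) else 0) +
        ENNReal.ofReal c₇ * (if k ∈ N then 0 else ENNReal.ofReal (mass p 1 ((k : ℝ) + 1 / 2))) := by
    intro k
    by_cases hk : k ∈ N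
    · simp only [hk, if_true, mul_zero, add_zero]
      exact min_le_right _ _
    · simp only [hk, if_false, zero_add]
      refine (min_le_left _ _).trans ?_
      rw [ENNReal.ofReal_mul h7.le]
  refine (ENNReal.tsum_le_tsum hterm).trans ?_
  rw [ENNReal.tsum_add, ENNReal.tsum_mul_left]
  have h1 : ∑' k : ℤ, (if k ∈ N then ENNReal.ofReal (14 * (β * L)) else 0) =
      N.card * ENNReal.ofReal (14 * (β * L)) := by
    rw [tsum_eq_sum (s := N) fun k hk => by simp [hk]]
    rw [Finset.sum_congr rfl fun k hk => by rw [if_pos hk], Finset.sum_const, nsmul_eq_mul]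
  rw [h1]
  have h2 : (N.card : ℝ≥0∞) * ENNReal.ofReal (14 * (β * L)) ≤
      ENNReal.ofReal (28 * C₀ * tot p * β * L ^ 2) := by
    rw [← ENNReal.ofReal_natCast, ← ENNReal.ofReal_mul (by positivity)]
    apply ENNReal.ofReal_le_ofReal
    have h3 : (N.card : ℝ) ≤ 2 * (C₀ * tot p * L) := by
      refine hN1.trans ?_
      have : 2 - Real.log β ≤ 2 * L := by rw [hL]; linarith
      calc C₀ * tot p * (2 - Real.log β) ≤ C₀ * tot p * (2 * L) := by gcongr
        _ = 2 * (C₀ * tot p * L) := by ring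
    calc (N.card : ℝ) * (14 * (β * L)) ≤ 2 * (C₀ * tot p * L) * (14 * (β * L)) := by gcongr
      _ = 28 * C₀ * tot p * β * L ^ 2 := by ring
  have h4 : ENNReal.ofReal c₇ * ∑' k : ℤ, (if k ∈ N then 0 else
      ENNReal.ofReal (mass p 1 ((k : ℝ) + 1 / 2))) ≤ ENNReal.ofReal (c₇ * C₀ * tot p * β * L ^ 2) := by
    calc _ ≤ ENNReal.ofReal c₇ * ENNReal.ofReal (C₀ * tot p * Real.exp (-(2 - Real.log β))) := by
          gcongr
      _ = ENNReal.ofReal (c₇ * (C₀ * tot p * Real.exp (-(2 - Real.log β)))) := by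
          rw [← ENNReal.ofReal_mul h7.le]
      _ ≤ _ := by
          apply ENNReal.ofReal_le_ofReal
          have h5 : Real.exp (-(2 - Real.log β)) ≤ β := by
            have : -(2 - Real.log β) = Real.log β + (-2) := by ring
            rw [this, Real.exp_add, Real.exp_log hβ]
            have h6 : Real.exp (-2) ≤ 1 := Real.exp_le_one_iff.2 (by norm_num)
            nlinarith
          have h7' : 1 ≤ L ^ 2 := one_le_pow₀ hL1
          calc c₇ * (C₀ * tot p * Real.exp (-(2 - Real.log β))) ≤ c₇ * (C₀ * tot p * β) := by gcongr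
            _ = c₇ * C₀ * tot p * β * 1 := by ring
            _ ≤ c₇ * C₀ * tot p * β * L ^ 2 := by gcongr
  calc _ ≤ ENNReal.ofReal (28 * C₀ * tot p * β * L ^ 2) + ENNReal.ofReal (c₇ * C₀ * tot p * β * L ^ 2) :=
        add_le_add h2 h4
    _ = _ := by
        rw [← ENNReal.ofReal_add (by positivity) (by positivity)]
        congr 1
        ring

end Pool.Agent.MP_c11b14_lc.OP
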