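import Pool.Agent.Lib.MP_c11b14_lc.OP.Defs

set_option autoImplicit false

/-! T4a: the corners. Far from the corners of the Newton polygons the speed is exponentially small. -/

namespace Pool.Agent.MP_c11b14_lc.OP

open Polynomial Complex MeasureTheory Real
open scoped ENNReal

/-- The corners of the convex function `u ↦ max_n (log |c_n| + n u)`: the points where two different monomials have the same size and no monomial is larger. -/
noncomputable def cor (p : ℝ[X]) : Set ℝ :=
  {u | ∃ m ∈ p.support, ∃ n ∈ p.support, m < n ∧ |p.coeff m| * Real.exp (m * u) = |p.coeff n| * Real.exp (n * u) ∧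
    ∀ k ∈ p.support, |p.coeff k| * Real.exp (k * u) ≤ |p.coeff m| * Real.exp (m * u)}

/-- The logarithm of the size of the `j`-th monomial. -/
noncomputable def corW (p : ℝ[X]) (j : ℕ) (t : ℝ) : ℝ := Real.log |p.coeff j| + j * t

theorem corW_exp {p : ℝ[X]} {j : ℕ} (hj : j ∈ p.support) (t : ℝ) :
    |p.coeff j| * Real.exp (j * t) = Real.exp (corW p j t) := by
  rw [corW, Real.exp_add, Real.exp_log (abs_pos.mpr (Polynomial.mem_support_iff.mp hj))]

theorem mem_cor {p : ℝ[X]} {u : ℝ} : u ∈ cor p ↔ ∃ m ∈ p.support, ∃ n ∈ p.support, m < n ∧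
    corW p m u = corW p n u ∧ ∀ k ∈ p.support, corW p k u ≤ corW p m u := by
  unfold cor
  constructor
  · rintro ⟨m, hm, n, hn, hmn, h1, h2⟩
    rw [corW_exp hm, corW_exp hn] at h1
    refine ⟨m, hm, n, hn, hmn, Real.exp_injective h1, fun k hk => ?_⟩
    have := h2 k hk
    rwa [corW_exp hm, corW_exp hk, Real.exp_le_exp] at this
  · rintro ⟨m, hm, n, hn, hmn, h1, h2⟩
    refine ⟨m, hm, n, hn, hmn, by rw [corW_exp hm, corW_exp hn, h1], fun k hk => ?_⟩
    rw [corW_exp hm, corW_exp hk, Real.exp_le_exp]
    exact h2 k hk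

/-- T4a. PROOF. Map a corner `u` to the largest `n` of the definition (the largest index of the maximum at `u`): `n` is not the smallest index of the support, and two corners `u < v` have
different `n`: let `m < n` be maximal at `u`, and let `m' < n'` be maximal at `v`, `n` resp. `n'` the largest ones; `|c_n| e^{nu} ≥ |c_{m'}| e^{m'u}` and `|c_{m'}| e^{m'v} ≥ |c_n| e^{nv}`
give `(n - m')(v - u) ≤ 0`.. so `n ≤ m' < n'`. So `cor p` is finite of at most `t` elements, `t = p.support.card`. -/
theorem cor_card {p : ℝ[X]} (hp : p ≠ 0) : ∃ s : Finset ℝ, (∀ u ∈ cor p, u ∈ s) ∧ s.card ≤ p.support.card := by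
  classical
  have h0 : ∀ u : ℝ, ∃ n : ℕ, u ∈ cor p → ∃ m ∈ p.support, n ∈ p.support ∧ m < n ∧
      corW p m u = corW p n u ∧ ∀ k ∈ p.support, corW p k u ≤ corW p m u := by
    intro u
    by_cases hu : u ∈ cor p
    · obtain ⟨m, hm, n, hn, h⟩ := mem_cor.mp hu
      exact ⟨n, fun _ => ⟨m, hm, hn, h⟩⟩
    · exact ⟨0, fun h => absurd h hu⟩
  choose N hN using h0
  have hmono : ∀ u ∈ cor p, ∀ v ∈ cor p, u < v → N u < N v := by
    intro u hu v hv huv
    obtain ⟨m, hm, hn, _, h1, h2⟩ := hN u hu
    obtain ⟨m', hm', hn', hmn', h1', h2'⟩ := hN v hv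
    refine lt_of_le_of_lt ?_ hmn'
    have a1 := h2 m' hm'
    have a2 := h2' (N u) hn
    rw [h1] at a1
    unfold corW at a1 a2
    by_contra hcon
    push Not at hcon
    have h3 : (m' : ℝ) < N u := by exact_mod_cast hcon
    nlinarith
  have hinj : Set.InjOn N (cor p) := by
    intro u hu v hv h
    rcases lt_trichotomy u v with h1 | h1 | h1
    · exact absurd h (hmono u hu v hv h1).ne
    · exact h1
    · exact absurd h.symm (hmono v hv u hu h1).ne
  have hmaps : Set.MapsTo N (cor p) (p.support : Set ℕ) := by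
    intro u hu
    obtain ⟨_, _, hn, _⟩ := hN u hu
    exact hn
  have hfin : (cor p).Finite := Set.Finite.of_injOn hmaps hinj p.support.finite_toSet
  refine ⟨hfin.toFinset, fun u hu => hfin.mem_toFinset.mpr hu, ?_⟩
  refine Finset.card_le_card_of_injOn N ?_ ?_
  · intro u hu
    exact hmaps (hfin.mem_toFinset.mp hu)
  · intro u hu v hv h
    exact hinj (hfin.mem_toFinset.mp hu) (hfin.mem_toFinset.mp hv) h

/-- T4b. PROOF. Let `n` be the largest index with `|c_n| e^{nu}` maximal. CLAIM: `|c_k| e^{ku} ≤ e^{-|k-n| D} |c_n| e^{nu}` for every `k` in the support: let `v` be the largest point `≥ u` (or `∞`) such that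
`n` is maximal on `[u, v]`; at `v < ∞` another index `k > n` is equal to `n` and both are maximal, so `v ∈ cor p` and `v - u ≥ D`; compare `k > n` at `u + D`: `|c_k| e^{k(u+D)} ≤ |c_n| e^{n(u+D)}`.
SIMPLER: suppose `k > n` and `|c_k| e^{k(u+D')} > |c_n| e^{n(u+D')}` for some `0 ≤ D' < D`. The continuous functions `m_+ = max_{k > n} |c_k| e^{ku}`, `m_- = max_{k ≤ n} |c_k| e^{ku}`: `m_+ ≤ m_-` at `u`,
`m_+ > m_-` at `u + D'` (as for `k < n` the quotient to `n` decreases); by the intermediate value theorem there is `v ∈ [u, u + D']` with `m_+ = m_-`: a corner. Contradiction. `k < n` similarly on the left. -/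
theorem cor_gap {p : ℝ[X]} (hp : p ≠ 0) {u D : ℝ} (hD : 0 < D) (h : ∀ v ∈ cor p, D ≤ |v - u|) :
    ∃ n ∈ p.support, ∀ k ∈ p.support, |p.coeff k| * Real.exp (k * u) ≤
      Real.exp (-(|(k : ℝ) - n| * D)) * (|p.coeff n| * Real.exp (n * u)) := by
  classical
  obtain ⟨n, hn, hmax⟩ := Finset.exists_max_image p.support (fun j => corW p j u)
    (Polynomial.nonempty_support_iff.mpr hp)
  refine ⟨n, hn, fun k hk => ?_⟩
  rw [corW_exp hk, corW_exp hn, ← Real.exp_add, Real.exp_le_exp]
  rcases lt_trichotomy k n with hkn | hkn | hkn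
  · -- the left side
    have hne : (p.support.filter (· < n)).Nonempty := ⟨k, by simp [hkn, Polynomial.mem_support_iff.mp hk]⟩
    let t : ℕ → ℝ := fun j => (Real.log |p.coeff j| - Real.log |p.coeff n|) / ((n : ℝ) - j)
    obtain ⟨j, hj, hjmax⟩ := Finset.exists_max_image (p.support.filter (· < n)) t hne
    rw [Finset.mem_filter] at hj
    have hjn : (0 : ℝ) < (n : ℝ) - j := by
      have : (j : ℝ) < n := by exact_mod_cast hj.2
      linarith
    have hcr : ∀ i : ℕ, i < n → ∀ s : ℝ, t i ≤ s → corW p i s ≤ corW p n s := by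
      intro i hi s hs
      have hin : (0 : ℝ) < (n : ℝ) - i := by
        have : (i : ℝ) < n := by exact_mod_cast hi
        linarith
      have h1 := (div_le_iff₀ hin).mp hs
      unfold corW
      nlinarith
    have hju : t j ≤ u := by
      have h1 := hmax j hj.1
      simp only [corW] at h1
      exact (div_le_iff₀ hjn).mpr (by nlinarith)
    have heq : corW p j (t j) = corW p n (t j) := by
      have h1 : t j * ((n : ℝ) - j) = Real.log |p.coeff j| - Real.log |p.coeff n| :=
        div_mul_cancel₀ _ hjn.ne'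
      unfold corW
      nlinarith
    have hcor : t j ∈ cor p := by
      refine mem_cor.mpr ⟨j, hj.1, n, hn, hj.2, heq, fun i hi => ?_⟩
      rw [heq]
      rcases lt_trichotomy i n with h1 | h1 | h1
      · exact hcr i h1 _ (hjmax i (Finset.mem_filter.mpr ⟨hi, h1⟩))
      · rw [h1]
      · have h2 := hmax i hi
        have h3 : (n : ℝ) < i := by exact_mod_cast h1
        simp only [corW] at h2 ⊢
        nlinarith
    have h4 : D ≤ u - t j := by
      have := h _ hcor
      rwa [abs_of_nonpos (by linarith), neg_sub] at this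
    have h5 := hcr k hkn (u - D) (le_trans (hjmax k (Finset.mem_filter.mpr ⟨hk, hkn⟩)) (by linarith))
    have h6 : (k : ℝ) < n := by exact_mod_cast hkn
    rw [abs_of_nonpos (by linarith)]
    simp only [corW] at h5 ⊢
    nlinarith
  · subst hkn
    simp
  · -- the right side
    have hne : (p.support.filter (n < ·)).Nonempty := ⟨k, by simp [hkn, Polynomial.mem_support_iff.mp hk]⟩
    let t : ℕ → ℝ := fun j => (Real.log |p.coeff n| - Real.log |p.coeff j|) / ((j : ℝ) - n)
    obtain ⟨j, hj, hjmin⟩ := Finset.exists_min_image (p.support.filter (n < ·)) t hne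
    rw [Finset.mem_filter] at hj
    have hjn : (0 : ℝ) < (j : ℝ) - n := by
      have : (n : ℝ) < j := by exact_mod_cast hj.2
      linarith
    have hcr : ∀ i : ℕ, n < i → ∀ s : ℝ, s ≤ t i → corW p i s ≤ corW p n s := by
      intro i hi s hs
      have hin : (0 : ℝ) < (i : ℝ) - n := by
        have : (n : ℝ) < i := by exact_mod_cast hi
        linarith
      have h1 := (le_div_iff₀ hin).mp hs
      unfold corW
      nlinarith
    have hju : u ≤ t j := by
      have h1 := hmax j hj.1
      simp only [corW] at h1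
      exact (le_div_iff₀ hjn).mpr (by nlinarith)
    have heq : corW p n (t j) = corW p j (t j) := by
      have h1 : t j * ((j : ℝ) - n) = Real.log |p.coeff n| - Real.log |p.coeff j| :=
        div_mul_cancel₀ _ hjn.ne'
      unfold corW
      nlinarith
    have hcor : t j ∈ cor p := by
      refine mem_cor.mpr ⟨n, hn, j, hj.1, hj.2, heq, fun i hi => ?_⟩
      rcases lt_trichotomy i n with h1 | h1 | h1
      · have h2 := hmax i hi
        have h3 : (i : ℝ) < n := by exact_mod_cast h1
        simp only [corW] at h2 ⊢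
        nlinarith
      · rw [h1]
      · exact hcr i h1 _ (hjmin i (Finset.mem_filter.mpr ⟨hi, h1⟩))
    have h4 : D ≤ t j - u := by
      have := h _ hcor
      rwa [abs_of_nonneg (by linarith)] at this
    have h5 := hcr k hkn (u + D) (le_trans (by linarith) (hjmin k (Finset.mem_filter.mpr ⟨hk, hkn⟩)))
    have h6 : (n : ℝ) < k := by exact_mod_cast hkn
    rw [abs_of_nonneg (by linarith)]
    simp only [corW] at h5 ⊢
    nlinarith

end Pool.Agent.MP_c11b14_lc.OP
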