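import Pool.Agent.Lib.MP_c11b14_lc.TB.T4a
import Pool.Agent.Lib.MP_c11b14_lc.OP.B0

set_option autoImplicit false

/-! T4b: far from the corners of the Newton polygons the speed is exponentially small. -/

namespace Pool.Agent.MP_c11b14_lc.OP

open Polynomial Complex MeasureTheory Real
open scoped ENNReal

/-- The norm of `EL p 1 n` is `|c_n|`. -/
private theorem T4b_norm_EL (p : ℝ[X]) (n : ℕ) : ‖EL p 1 n‖ = |p.coeff n| := by
  have hprob := prob_muL (ℓ := 1) one_pos
  have hn : ∀ ω : ℝ, ‖(p.coeff n : ℂ) * en n ω‖ = |p.coeff n| := by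
    intro ω
    unfold en
    rw [norm_mul, Complex.norm_real, Complex.norm_exp, Real.norm_eq_abs]
    have : ((n : ℂ) * ω * I).re = 0 := by simp
    rw [this, Real.exp_zero, mul_one]
  have hmem : MemLp (fun ω => (p.coeff n : ℂ) * en n ω) 2 (muL 1) := by
    apply MemLp.of_bound (C := |p.coeff n|)
    · apply Continuous.aestronglyMeasurable
      unfold en
      fun_prop
    · exact Filter.Eventually.of_forall fun ω => (hn ω).le
  unfold EL
  rw [dif_pos hmem, Lp.norm_toLp]
  have h1 : eLpNorm (fun ω => (p.coeff n : ℂ) * en n ω) 2 (muL 1) =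
      eLpNorm (fun _ : ℝ => |p.coeff n|) 2 (muL 1) := by
    apply eLpNorm_congr_norm_ae
    exact Filter.Eventually.of_forall fun ω => by
      change ‖(p.coeff n : ℂ) * en n ω‖ = ‖|p.coeff n|‖
      rw [hn ω, Real.norm_eq_abs, abs_abs]
  rw [h1, eLpNorm_const _ (by norm_num) (IsProbabilityMeasure.ne_zero _)]
  simp

/-- `lam` minimises. -/
private theorem T4b_lam {V : Type} [NormedAddCommGroup V] [InnerProductSpace ℝ V] (x y : V) (hx : x ≠ 0)
    (c : ℝ) : ‖y - lam x y • x‖ ≤ ‖y - c • x‖ := by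
  have hn : ‖x‖ ^ 2 ≠ 0 := pow_ne_zero 2 (norm_ne_zero_iff.mpr hx)
  have horth : inner ℝ (y - lam x y • x) x = 0 := by
    rw [inner_sub_left, real_inner_smul_left, real_inner_self_eq_norm_sq, lam, real_inner_comm x y]
    field_simp
    ring
  have e : y - c • x = (y - lam x y • x) + (lam x y - c) • x := by
    rw [sub_smul]
    abel
  have h : ‖y - c • x‖ ^ 2 = ‖y - lam x y • x‖ ^ 2 + ‖(lam x y - c) • x‖ ^ 2 := by
    rw [e, norm_add_sq_real, real_inner_smul_right, horth]
    ring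
  have h2 : ‖y - lam x y • x‖ ^ 2 ≤ ‖y - c • x‖ ^ 2 := by
    rw [h]
    have := sq_nonneg ‖(lam x y - c) • x‖
    linarith
  exact le_of_sq_le_sq h2 (norm_nonneg _)

/-- A sum over a finite set of integers of a function of the distance to `n`. -/
private theorem T4b_sum (g : ℕ → ℝ) (hg : ∀ j, 0 ≤ g j) (hs : Summable g) (s : Finset ℕ) (n : ℕ) (h0 : g 0 = 0 ∨ n ∉ s) :
    ∑ k ∈ s, g (Int.natAbs ((k : ℤ) - n)) ≤ 2 * (∑' j, g j - g 0) := by
  classical
  have hpos : ∀ f : ℕ → ℕ, ∀ t : Finset ℕ, Set.InjOn f t → (∀ k ∈ t, f k ≠ 0) →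
      ∑ k ∈ t, g (f k) ≤ ∑' j, g j - g 0 := by
    intro f t hinj hne
    rw [← Finset.sum_image (g := f) (f := g) hinj]
    have h1 : (0 : ℕ) ∉ t.image f := by
      rw [Finset.mem_image]
      rintro ⟨k, hk, hk0⟩
      exact hne k hk hk0
    have h2 := hs.sum_le_tsum (insert 0 (t.image f)) (fun j _ => hg j)
    rw [Finset.sum_insert h1] at h2
    linarith
  have hsplit : ∑ k ∈ s, g (Int.natAbs ((k : ℤ) - n)) =
      ∑ k ∈ s.filter (fun k => k < n), g (n - k) + (∑ k ∈ s.filter (fun k => n < k), g (k - n)) := by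
    have h1 : ∑ k ∈ s, g (Int.natAbs ((k : ℤ) - n)) =
        ∑ k ∈ s, ((if k < n then g (n - k) else 0) + (if n < k then g (k - n) else 0)) := by
      apply Finset.sum_congr rfl
      intro k hk
      rcases lt_trichotomy k n with h | h | h
      · rw [if_pos h, if_neg (by omega), add_zero]
        congr 1
        omega
      · rw [if_neg (by omega), if_neg (by omega), add_zero]
        subst h
        rcases h0 with h0 | h0
        · simpa using h0
        · exact absurd hk h0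
      · rw [if_neg (by omega), if_pos h, zero_add]
        congr 1
        omega
    rw [h1, Finset.sum_add_distrib, Finset.sum_filter, Finset.sum_filter]
  have hA := hpos (fun k => n - k) (s.filter (fun k => k < n)) (by
    intro a ha b hb hab
    simp only [Finset.coe_filter, Set.mem_ofPred_eq] at ha hb
    simp only at hab
    omega) (by
    intro k hk
    simp only [Finset.mem_filter] at hk
    omega)
  have hB := hpos (fun k => k - n) (s.filter (fun k => n < k)) (by
    intro a ha b hb hab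
    simp only [Finset.coe_filter, Set.mem_ofPred_eq] at ha hb
    simp only at hab
    omega) (by
    intro k hk
    simp only [Finset.mem_filter] at hk
    omega)
  rw [hsplit]
  linarith

/-- T4c. PROOF. `vL p 1 u = ∑ e^{ku} EL p 1 k` (`vL_eq_cur`), `‖EL p 1 k‖ = |c_k|` (probability measure, `‖e^{ikω}‖ = 1`; `≤` suffices, and `=` for `n`), `vL (dX p) 1 u = ∑ k e^{ku} EL p 1 k` (see `total`,
`hasDerivAt_vL`). `spd x y ≤ ‖y - n x‖/‖x‖` (`lam` minimises). With T4b: `‖y - n x‖ ≤ M ∑_{k ≠ n} |k - n| e^{-|k-n|D} ≤ M · 2 ∑_{j ≥ 1} j q^j`, `q = e^{-D} ≤ e^{-2} < 1/7`, `‖x‖ ≥ M (1 - 2 ∑_{j≥1} q^j)`,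
`M = |c_n| e^{nu}`; `2 q/(1-q)² ≤ 2 q (49/36) ≤ 3 q`, `1 - 2q/(1-q) ≥ 1 - 2/6 = 2/3`. So `sp ≤ 5 q`. -/
theorem sp_far {p : ℝ[X]} (hp : p ≠ 0) {u D : ℝ} (hD : 2 ≤ D) (h : ∀ v ∈ cor p, D ≤ |v - u|) :
    sp p 1 u ≤ 5 * Real.exp (-D) := by
  classical
  obtain ⟨n, hn, hk⟩ := cor_gap hp (by linarith : (0 : ℝ) < D) h
  set q : ℝ := Real.exp (-D) with hq
  have hq0 : 0 < q := Real.exp_pos _
  have hq7 : q ≤ 1 / 7 := by
    have h1 : q ≤ Real.exp (-2) := Real.exp_le_exp.mpr (by linarith)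
    have h2 : Real.exp (-2) ≤ 1 / 7 := by
      rw [Real.exp_neg, inv_eq_one_div]
      apply one_div_le_one_div_of_le (by norm_num)
      have h3 := Real.exp_one_gt_d9
      have h4 : Real.exp 2 = Real.exp 1 ^ 2 := by
        rw [← Real.exp_nat_mul]
        norm_num
      rw [h4]
      nlinarith
    linarith
  have hq1 : q < 1 := by linarith
  set M : ℝ := |p.coeff n| * Real.exp (n * u) with hM
  have hM0 : 0 < M := by
    have : p.coeff n ≠ 0 := mem_support_iff.mp hn
    have := abs_pos.mpr this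
    positivity
  -- the terms
  have hd : ∀ k : ℕ, |(k : ℝ) - n| = ((Int.natAbs ((k : ℤ) - n) : ℕ) : ℝ) := by
    intro k
    rw [Nat.cast_natAbs]
    push_cast
    rfl
  have hterm : ∀ k ∈ p.support, |p.coeff k| * Real.exp (k * u) ≤ q ^ (Int.natAbs ((k : ℤ) - n)) * M := by
    intro k hks
    refine (hk k hks).trans (le_of_eq ?_)
    rw [hd k, hq, ← Real.exp_nat_mul]
    congr 2
    ring
  have hx : vL p 1 u = ∑ k ∈ p.support, Real.exp (k * u) • EL p 1 k := (vL_eq_cur one_pos p u).1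
  have hy : vL (dX p) 1 u = ∑ k ∈ p.support, ((k : ℝ) * Real.exp (k * u)) • EL p 1 k :=
    (vL_eq_cur one_pos p u).2
  have hx0 : vL p 1 u ≠ 0 := vL_ne_zero one_pos hp u
  -- the two sums
  have hqn : ‖q‖ < 1 := by rw [Real.norm_eq_abs, abs_of_pos hq0]; exact hq1
  have hS1 : ∑ k ∈ p.support, ((Int.natAbs ((k : ℤ) - n) : ℕ) : ℝ) * q ^ (Int.natAbs ((k : ℤ) - n)) ≤ 3 * q := by
    have h1 := T4b_sum (fun j => (j : ℝ) * q ^ j) (fun j => by positivity)
      (hasSum_coe_mul_geometric_of_norm_lt_one hqn).summable p.support n (Or.inl (by simp))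
    rw [tsum_coe_mul_geometric_of_norm_lt_one hqn] at h1
    refine h1.trans ?_
    simp only [Nat.cast_zero, zero_mul, sub_zero]
    have h2 : 0 < (1 - q) ^ 2 := by
      have : 0 < 1 - q := by linarith
      positivity
    rw [mul_div_assoc', div_le_iff₀ h2]
    have h8 : 2 / 3 ≤ (1 - q) ^ 2 := by nlinarith
    nlinarith [mul_le_mul_of_nonneg_left h8 hq0.le]
  have hS0 : ∑ k ∈ p.support.erase n, q ^ (Int.natAbs ((k : ℤ) - n)) ≤ 1 / 3 := by
    have h1 := T4b_sum (fun j => q ^ j) (fun j => by positivity)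
      (summable_geometric_of_lt_one hq0.le hq1) (p.support.erase n) n (Or.inr (by simp))
    rw [tsum_geometric_of_lt_one hq0.le hq1] at h1
    refine h1.trans ?_
    have h2 : 0 < 1 - q := by linarith
    rw [pow_zero]
    have h3 : (1 - q)⁻¹ - 1 = q / (1 - q) := by
      field_simp
      ring
    rw [h3, mul_div_assoc', div_le_iff₀ h2]
    linarith
  -- the numerator
  have hnum : ‖vL (dX p) 1 u - (n : ℝ) • vL p 1 u‖ ≤ 3 * q * M := by
    have e1 : vL (dX p) 1 u - (n : ℝ) • vL p 1 u =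
        ∑ k ∈ p.support, (((k : ℝ) - n) * Real.exp (k * u)) • EL p 1 k := by
      rw [hx, hy, Finset.smul_sum, ← Finset.sum_sub_distrib]
      apply Finset.sum_congr rfl
      intro k _
      rw [smul_smul, ← sub_smul]
      congr 1
      ring
    rw [e1]
    refine (norm_sum_le _ _).trans ?_
    calc ∑ k ∈ p.support, ‖(((k : ℝ) - n) * Real.exp (k * u)) • EL p 1 k‖
        ≤ ∑ k ∈ p.support, (((Int.natAbs ((k : ℤ) - n) : ℕ) : ℝ) * q ^ (Int.natAbs ((k : ℤ) - n))) * M := by
          apply Finset.sum_le_sum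
          intro k hks
          rw [norm_smul, T4b_norm_EL, norm_mul, Real.norm_eq_abs, Real.norm_eq_abs, Real.abs_exp, hd k]
          have h5 := mul_le_mul_of_nonneg_left (hterm k hks)
            (Nat.cast_nonneg (α := ℝ) (Int.natAbs ((k : ℤ) - n)))
          calc _ = ((Int.natAbs ((k : ℤ) - n) : ℕ) : ℝ) * (|p.coeff k| * Real.exp (k * u)) := by ring
            _ ≤ _ := h5
            _ = _ := by ring
      _ = (∑ k ∈ p.support, ((Int.natAbs ((k : ℤ) - n) : ℕ) : ℝ) * q ^ (Int.natAbs ((k : ℤ) - n))) * M := by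
          rw [Finset.sum_mul]
      _ ≤ 3 * q * M := mul_le_mul_of_nonneg_right hS1 hM0.le
  -- the denominator
  have hden : 2 / 3 * M ≤ ‖vL p 1 u‖ := by
    have e1 : vL p 1 u = Real.exp (n * u) • EL p 1 n + ∑ k ∈ p.support.erase n, Real.exp (k * u) • EL p 1 k := by
      rw [hx]
      exact (Finset.add_sum_erase p.support (fun k : ℕ => Real.exp (k * u) • EL p 1 k) hn).symm
    have h6 : ‖Real.exp (n * u) • EL p 1 n‖ = M := by
      rw [norm_smul, T4b_norm_EL, Real.norm_eq_abs, Real.abs_exp, hM]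
      ring
    have h7 : ‖∑ k ∈ p.support.erase n, Real.exp (k * u) • EL p 1 k‖ ≤ 1 / 3 * M := by
      refine (norm_sum_le _ _).trans ?_
      calc ∑ k ∈ p.support.erase n, ‖Real.exp (k * u) • EL p 1 k‖
          ≤ ∑ k ∈ p.support.erase n, q ^ (Int.natAbs ((k : ℤ) - n)) * M := by
            apply Finset.sum_le_sum
            intro k hks
            rw [norm_smul, T4b_norm_EL, Real.norm_eq_abs, Real.abs_exp, mul_comm]
            exact hterm k (Finset.mem_of_mem_erase hks)
        _ = (∑ k ∈ p.support.erase n, q ^ (Int.natAbs ((k : ℤ) - n))) * M := by rw [Finset.sum_mul]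
        _ ≤ 1 / 3 * M := mul_le_mul_of_nonneg_right hS0 hM0.le
    have h8 : ‖Real.exp (n * u) • EL p 1 n‖ ≤
        ‖vL p 1 u‖ + ‖∑ k ∈ p.support.erase n, Real.exp (k * u) • EL p 1 k‖ := by
      have h9 := norm_sub_le (vL p 1 u) (∑ k ∈ p.support.erase n, Real.exp (k * u) • EL p 1 k)
      rw [e1, add_sub_cancel_right, ← e1] at h9
      exact h9
    rw [h6] at h8
    linarith
  -- the end
  have hxn : 0 < ‖vL p 1 u‖ := norm_pos_iff.mpr hx0
  unfold sp spd
  rw [div_le_iff₀ hxn]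
  calc ‖vL (dX p) 1 u - lam (vL p 1 u) (vL (dX p) 1 u) • vL p 1 u‖
      ≤ ‖vL (dX p) 1 u - (n : ℝ) • vL p 1 u‖ := T4b_lam _ _ hx0 _
    _ ≤ 3 * q * M := hnum
    _ ≤ 5 * q * (2 / 3 * M) := by nlinarith [mul_pos hq0 hM0]
    _ ≤ 5 * q * ‖vL p 1 u‖ := mul_le_mul_of_nonneg_left hden (by positivity)

end Pool.Agent.MP_c11b14_lc.OP
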