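import Pool.Agent.Lib.MP_c11b14_lc.TB.T2
import Pool.Agent.Lib.MP_c11b14_lc.TB.T4
import Pool.Agent.Lib.MP_c11b14_lc.OP.G1

set_option autoImplicit false

/-! T5: the levels and the positive zeros, in the mean over a set of parameters. -/

namespace Pool.Agent.MP_c11b14_lc.OP

open Polynomial Complex MeasureTheory Real
open scoped ENNReal

/-- T5a. PROOF. Copy of `C4.levels` with `level_zeroS`, `min_sum`, `good_majS` (`ℓ = 1/2^(M+1) ≤ 1`), `bad_count`. Level `0`: `C tot β (1 - log β)² + (card + 1) β`; each further level adds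
`2 card · 14 β (1 - log β)`. -/
theorem levelsS : ∃ c₉ : ℝ, 0 < c₉ ∧ ∀ (κ : Type) [Fintype κ] (p : κ → ℝ[X]) (σ : κ → Bool),
    (∀ k, p k ≠ 0) → 1 ≤ tot p → ∀ M : ℕ, ∃ B : Finset ℤ, (B.card : ℝ) ≤ c₉ * tot p ∧
      MajS (fun lm => cz p σ lm {u | ⌊u * 2 ^ M⌋ ∉ B})
        (fun β => ENNReal.ofReal (c₉ * tot p * (β * (1 - Real.log β)) * (M + 1 - Real.log β))) := by
  obtain ⟨d₈, hd₈, hBC⟩ := bad_count
  obtain ⟨ε₁, hε₁, hG⟩ := good_majS
  obtain ⟨ε₂, c₇, hε₂, hc₇, hL⟩ := level_zeroS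
  obtain ⟨C, hC, hMS⟩ := min_sum c₇ hc₇
  set ε := min ε₁ ε₂ with hεdef
  have hε : 0 < ε := lt_min hε₁ hε₂
  have hdε : 0 < d₈ / ε := by positivity
  refine ⟨C + 28 * (d₈ / ε) + 1, by positivity, ?_⟩
  set c₉ := C + 28 * (d₈ / ε) + 1 with hc₉def
  have hc₉ : 0 < c₉ := by positivity
  intro κ _ p σ hp htot M
  have htotR : (1 : ℝ) ≤ tot p := by exact_mod_cast htot
  choose B hB1 hB2 using fun j => hBC κ p hp ε hε j
  have hcard : ∀ j, ((B j).card : ℝ) ≤ d₈ / ε * tot p := fun j => by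
    have := hB2 j
    have e : d₈ * (tot p : ℝ) / ε = d₈ / ε * tot p := by ring
    linarith
  refine ⟨B M, ?_, ?_⟩
  · have := hcard M
    have h3 : d₈ / ε * (tot p : ℝ) ≤ c₉ * tot p := by
      apply mul_le_mul_of_nonneg_right _ (by positivity)
      rw [hc₉def]; linarith
    linarith
  · induction M with
    | zero =>
      have h1 : ∀ k : ℤ, k ∉ B 0 → mass p 1 ((k : ℝ) + 1 / 2) ≤ ε₂ := by
        intro k hk
        have := hB1 0 k hk
        simp only [ctr, pow_zero, div_one] at this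
        exact this.trans (min_le_right _ _)
      refine (hL κ p σ hp (B 0) h1).mono' ?_ ?_
      · intro lm _ _
        refine cz_mono p σ lm fun u hu => ?_
        simpa using hu
      · intro β h0 h1β
        have hlβ := Real.log_nonpos h0.le h1β
        have a1 : 1 ≤ 1 - Real.log β := by linarith
        have h3 := hMS κ p hp β h0 h1β
        have h4 : ((B 0).card : ℝ≥0∞) + 1 = ENNReal.ofReal ((B 0).card + 1) := by
          rw [ENNReal.ofReal_add (by positivity) (by norm_num)]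
          simp
        rw [h4, ← ENNReal.ofReal_mul (by positivity)]
        refine (add_le_add_left h3 _).trans ?_
        rw [← ENNReal.ofReal_add (by positivity) (by positivity)]
        apply ENNReal.ofReal_le_ofReal
        have h5 := hcard 0
        set Λ : ℝ := 1 - Real.log β with hΛ
        have hX : 0 ≤ β * Λ ^ 2 := by positivity
        have hX1 : β ≤ β * Λ ^ 2 := by
          have : (1 : ℝ) ≤ Λ ^ 2 := one_le_pow₀ a1
          exact le_mul_of_one_le_right h0.le this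
        have e1 : c₉ * tot p * (β * Λ) * (((0 : ℕ) : ℝ) + 1 - Real.log β) = c₉ * tot p * (β * Λ ^ 2) := by
          rw [hΛ]; push_cast; ring
        rw [e1]
        have e2 : C * tot p * β * Λ ^ 2 = C * tot p * (β * Λ ^ 2) := by ring
        rw [e2]
        have h6 : ((B 0).card + 1 : ℝ) * β ≤ (28 * (d₈ / ε) + 1) * tot p * (β * Λ ^ 2) := by
          refine mul_le_mul ?_ hX1 h0.le (by positivity)
          nlinarith [mul_pos hdε (by linarith : (0 : ℝ) < tot p)]
        have e3 : c₉ * tot p * (β * Λ ^ 2) = C * tot p * (β * Λ ^ 2) +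
            (28 * (d₈ / ε) + 1) * tot p * (β * Λ ^ 2) := by
          rw [hc₉def]; ring
        rw [e3]
        linarith
    | succ M ih =>
      classical
      set F : Finset ℤ := ((B M).image (fun b => 2 * b) ∪ (B M).image (fun b => 2 * b + 1)).filter
        (fun k => k ∉ B (M + 1)) with hF
      have hFcard : F.card ≤ 2 * (B M).card := by
        calc F.card ≤ ((B M).image (fun b => 2 * b) ∪ (B M).image (fun b => 2 * b + 1)).card :=
              Finset.card_filter_le _ _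
          _ ≤ ((B M).image (fun b => 2 * b)).card + ((B M).image (fun b => 2 * b + 1)).card :=
              Finset.card_union_le _ _
          _ ≤ (B M).card + (B M).card :=
              add_le_add Finset.card_image_le Finset.card_image_le
          _ = 2 * (B M).card := by ring
      have hp2 : (0 : ℝ) < 2 ^ (M + 1) := by positivity
      have hsub : {u : ℝ | ⌊u * 2 ^ (M + 1)⌋ ∉ B (M + 1)} ⊆ {u : ℝ | ⌊u * 2 ^ M⌋ ∉ B M} ∪
          ⋃ k ∈ F, Set.Icc (ctr (M + 1) k - (1 / 2 ^ (M + 1)) / 2)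
            (ctr (M + 1) k + (1 / 2 ^ (M + 1)) / 2) := by
        intro u hu
        by_cases hb : ⌊u * 2 ^ M⌋ ∈ B M
        · right
          have f1 := Int.floor_le (u * 2 ^ (M + 1))
          have f2 := Int.lt_floor_add_one (u * 2 ^ (M + 1))
          have g1 := Int.floor_le (u * 2 ^ M)
          have g2 := Int.lt_floor_add_one (u * 2 ^ M)
          have he : u * 2 ^ (M + 1) = 2 * (u * 2 ^ M) := by ring
          refine Set.mem_iUnion₂.2 ⟨⌊u * 2 ^ (M + 1)⌋, ?_, ?_⟩
          · rw [hF, Finset.mem_filter]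
            refine ⟨?_, hu⟩
            rw [Finset.mem_union, Finset.mem_image, Finset.mem_image]
            have k1 : ((2 * ⌊u * 2 ^ M⌋ - 1 : ℤ) : ℝ) < (⌊u * 2 ^ (M + 1)⌋ : ℝ) := by
              push_cast; linarith
            have k2 : (⌊u * 2 ^ (M + 1)⌋ : ℝ) < ((2 * ⌊u * 2 ^ M⌋ + 2 : ℤ) : ℝ) := by
              push_cast; linarith
            have k1' := Int.cast_lt.1 k1
            have k2' := Int.cast_lt.1 k2
            have : ⌊u * 2 ^ (M + 1)⌋ = 2 * ⌊u * 2 ^ M⌋ ∨
                ⌊u * 2 ^ (M + 1)⌋ = 2 * ⌊u * 2 ^ M⌋ + 1 := by omega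
            rcases this with h | h
            · left; exact ⟨_, hb, h.symm⟩
            · right; exact ⟨_, hb, h.symm⟩
          · have e1 : ctr (M + 1) ⌊u * 2 ^ (M + 1)⌋ - (1 / 2 ^ (M + 1)) / 2 =
                (⌊u * 2 ^ (M + 1)⌋ : ℝ) / 2 ^ (M + 1) := by
              unfold ctr; ring
            have e2 : ctr (M + 1) ⌊u * 2 ^ (M + 1)⌋ + (1 / 2 ^ (M + 1)) / 2 =
                ((⌊u * 2 ^ (M + 1)⌋ : ℝ) + 1) / 2 ^ (M + 1) := by
              unfold ctr; ring
            rw [Set.mem_Icc, e1, e2, div_le_iff₀ hp2, le_div_iff₀ hp2]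
            exact ⟨f1, f2.le⟩
        · left; exact hb
      have hmaj : MajS (fun lm => ∑ k ∈ F, cz p σ lm (Set.Icc (ctr (M + 1) k - (1 / 2 ^ (M + 1)) / 2)
            (ctr (M + 1) k + (1 / 2 ^ (M + 1)) / 2)))
            (fun β => ∑ _k ∈ F, ENNReal.ofReal (14 * (β * (1 - Real.log β)))) := by
        refine MajS.sum F fun k hk => ?_
        refine hG κ p σ hp _ _ (by positivity) ?_ ?_
        · rw [div_le_one hp2]
          exact one_le_pow₀ (by norm_num)
        · refine (hB1 (M + 1) k ?_).trans (min_le_left _ _)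
          exact (Finset.mem_filter.1 hk).2
      refine (ih.add hmaj).mono' ?_ ?_
      · intro lm _ _
        refine (cz_mono p σ lm hsub).trans ((cz_union_le p σ lm _ _).trans ?_)
        gcongr
        exact cz_biUnion_le p σ lm F _
      · intro β h0 h1β
        have hlβ := Real.log_nonpos h0.le h1β
        set Λ : ℝ := 1 - Real.log β with hΛ
        have a1 : 1 ≤ Λ := by rw [hΛ]; linarith
        have h1 : (∑ _k ∈ F, ENNReal.ofReal (14 * (β * Λ))) = ENNReal.ofReal (F.card * (14 * (β * Λ))) := by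
          rw [Finset.sum_const, nsmul_eq_mul, ENNReal.ofReal_mul (Nat.cast_nonneg F.card),
            ENNReal.ofReal_natCast]
        have hb0 : 0 ≤ β * Λ := by positivity
        have hM0 : (0 : ℝ) ≤ (M : ℝ) + 1 - Real.log β := by
          have : (0 : ℝ) ≤ M := Nat.cast_nonneg _
          linarith
        rw [h1, ← ENNReal.ofReal_add (mul_nonneg (mul_nonneg (by positivity) hb0) hM0) (by positivity)]
        apply ENNReal.ofReal_le_ofReal
        have h2 : (F.card : ℝ) ≤ 2 * (B M).card := by exact_mod_cast hFcard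
        have h3 := hcard M
        have h5 : (F.card : ℝ) * (14 * (β * Λ)) ≤ c₉ * tot p * (β * Λ) := by
          have h6 : (F.card : ℝ) * 14 ≤ c₉ * tot p := by
            rw [hc₉def]
            have : 0 ≤ C * (tot p : ℝ) := by positivity
            nlinarith
          calc (F.card : ℝ) * (14 * (β * Λ)) = F.card * 14 * (β * Λ) := by ring
            _ ≤ c₉ * tot p * (β * Λ) := mul_le_mul_of_nonneg_right h6 hb0
        have e1 : c₉ * tot p * (β * Λ) * (((M + 1 : ℕ) : ℝ) + 1 - Real.log β) =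
            c₉ * tot p * (β * Λ) * ((M : ℝ) + 1 - Real.log β) + c₉ * tot p * (β * Λ) := by
          push_cast; ring
        rw [e1]
        linarith

/-- T5b. PROOF. Copy of `G1.pos_bound` with `levelsS`, `bottom_majS`. -/
theorem pos_boundS : ∃ c : ℝ, 0 < c ∧ ∀ (κ : Type) [Fintype κ] (p : κ → ℝ[X]) (σ : κ → Bool),
    (∀ k, p k ≠ 0) → 1 ≤ tot p → ∀ d : ℕ, (gp p σ true).natDegree ≤ d → (gp p σ false).natDegree ≤ d →
    MajS (fun lm => cz p σ lm Set.univ)
      (fun β => ENNReal.ofReal (c * tot p * (β * (1 - Real.log β)) *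
        (Real.log (2 + (d : ℝ) / tot p) - Real.log β))) := by
  obtain ⟨c₉, hc₉, hlev⟩ := levelsS
  obtain ⟨cs, hcs, hsec⟩ := sector_avg
  refine ⟨32 * c₉ + 4 * cs, by positivity, ?_⟩
  intro κ _ p σ hp htot d hd1 hd2
  have htot' : (1 : ℝ) ≤ tot p := by exact_mod_cast htot
  have ht0 : (0 : ℝ) < tot p := by linarith
  have hx : (0 : ℝ) ≤ (d : ℝ) / tot p := by positivity
  obtain ⟨M, hM2, hxM, hML⟩ := G1_level hx
  set L : ℝ := Real.log (2 + (d : ℝ) / tot p) with hL
  have hMp : (0 : ℝ) < 2 ^ M := by positivity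
  have h4M : (4 : ℝ) ≤ 2 ^ M := by
    calc (4 : ℝ) = 2 ^ 2 := by norm_num
      _ ≤ 2 ^ M := pow_le_pow_right₀ (by norm_num) hM2
  have hℓ0 : (0 : ℝ) < 1 / 2 ^ M := by positivity
  have hℓ4 : (1 : ℝ) / 2 ^ M ≤ 1 / 4 := one_div_le_one_div_of_le (by norm_num) h4M
  have hℓd : 1 / 2 ^ M * (d : ℝ) ≤ tot p := by
    rw [div_mul_eq_mul_div, one_mul, div_le_iff₀ hMp]
    rw [div_le_iff₀ ht0] at hxM
    linarith
  have h2ℓ : 2 * ((1 : ℝ) / 2 ^ M) ≤ 1 := by linarith
  have hLpos : 1 / 2 ≤ L := by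
    have h1 : Real.log 2 ≤ L := Real.log_le_log (by norm_num) (by linarith)
    linarith [Real.log_two_gt_d9]
  obtain ⟨B, hB, hBm⟩ := hlev κ p σ hp htot M
  obtain ⟨N, hNm, hN, hNi⟩ := hsec κ p σ hp htot d hd1 hd2 (1 / 2 ^ M) hℓ0 hℓd hℓ4
  have htwo : 2 * ((1 : ℝ) / 2 ^ M) = 2 / 2 ^ M := by ring
  have hθ := theta_sum σ hp M (by omega) B hNm (fun θ => by rw [← htwo]; exact hN θ)
  have hD0 : ∀ k : ℤ, 0 ≤ circleAverage (Ph p σ) (ctr M k) (2 / 2 ^ M) -
      circleAverage (Ph p σ) (ctr M k) (1 / 2 ^ M) := fun k => by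
    have := diff_nonneg σ hp (c := ctr M k) hℓ0 h2ℓ
    rwa [htwo] at this
  have hDs : ∑ k ∈ B, (circleAverage (Ph p σ) (ctr M k) (2 / 2 ^ M) -
      circleAverage (Ph p σ) (ctr M k) (1 / 2 ^ M)) ≤ cs * tot p := by
    have := hθ.trans hNi
    rwa [ENNReal.ofReal_le_ofReal_iff (by positivity)] at this
  have hlog2 : (0 : ℝ) < Real.log 2 := Real.log_pos (by norm_num)
  have hlog2' : (1 : ℝ) / 2 ≤ Real.log 2 := by linarith [Real.log_two_gt_d9]
  have hbot : MajS (fun lm => ∑ k ∈ B, cz p σ lm (Set.Icc (ctr M k - 1 / 2 ^ M) (ctr M k + 1 / 2 ^ M)))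
      (fun β => ∑ k ∈ B, ENNReal.ofReal (β * ((circleAverage (Ph p σ) (ctr M k) (2 / 2 ^ M) -
        circleAverage (Ph p σ) (ctr M k) (1 / 2 ^ M) + 6 - Real.log β) / Real.log 2))) := by
    refine MajS.sum B fun k _ => ?_
    have := bottom_majS σ hp (c := ctr M k) hℓ0 h2ℓ
    rwa [htwo] at this
  refine (hBm.add hbot).mono' (fun lm _ _ => ?_) ?_
  · refine (cz_mono p σ lm (G1_cover M B)).trans ((cz_union_le p σ lm _ _).trans ?_)
    exact add_le_add le_rfl (cz_biUnion_le p σ lm B _)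
  · intro β h0 h1β
    have hlβ := Real.log_nonpos h0.le h1β
    set q : ℝ := -Real.log β with hq
    have hq0 : 0 ≤ q := by rw [hq]; linarith
    have hterm : ∀ k ∈ B, 0 ≤ β * ((circleAverage (Ph p σ) (ctr M k) (2 / 2 ^ M) -
        circleAverage (Ph p σ) (ctr M k) (1 / 2 ^ M) + 6 - Real.log β) / Real.log 2) := fun k _ =>
      mul_nonneg h0.le (div_nonneg (by linarith [hD0 k]) hlog2.le)
    have hM0 : (0 : ℝ) ≤ (M : ℝ) + 1 - Real.log β := by
      have : (0 : ℝ) ≤ M := Nat.cast_nonneg _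
      linarith
    have hb0 : 0 ≤ β * (1 - Real.log β) := mul_nonneg h0.le (by linarith)
    rw [← ENNReal.ofReal_sum_of_nonneg hterm,
      ← ENNReal.ofReal_add (mul_nonneg (mul_nonneg (by positivity) hb0) hM0) (Finset.sum_nonneg hterm)]
    refine ENNReal.ofReal_le_ofReal ?_
    rw [← Finset.mul_sum, ← Finset.sum_div]
    have e0 : ∑ k ∈ B, (circleAverage (Ph p σ) (ctr M k) (2 / 2 ^ M) -
        circleAverage (Ph p σ) (ctr M k) (1 / 2 ^ M) + 6 - Real.log β) =
        ∑ k ∈ B, (circleAverage (Ph p σ) (ctr M k) (2 / 2 ^ M) -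
        circleAverage (Ph p σ) (ctr M k) (1 / 2 ^ M)) + (B.card : ℝ) * (6 + q) := by
      rw [← nsmul_eq_mul, ← Finset.sum_const, ← Finset.sum_add_distrib]
      refine Finset.sum_congr rfl fun k _ => ?_
      rw [hq]; ring
    rw [e0]
    set Sg : ℝ := ∑ k ∈ B, (circleAverage (Ph p σ) (ctr M k) (2 / 2 ^ M) -
        circleAverage (Ph p σ) (ctr M k) (1 / 2 ^ M)) with hSg
    have h1 : (Sg + (B.card : ℝ) * (6 + q)) / Real.log 2 ≤
        2 * (cs * tot p + (6 + q) * (c₉ * tot p)) := by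
      rw [div_le_iff₀ hlog2]
      have h2 : 0 ≤ cs * tot p + (6 + q) * (c₉ * tot p) := by positivity
      have h3 : (B.card : ℝ) * (6 + q) ≤ (6 + q) * (c₉ * tot p) := by
        rw [mul_comm]
        exact mul_le_mul_of_nonneg_left hB (by linarith)
      nlinarith
    have e1 : 1 - Real.log β = 1 + q := by rw [hq]; ring
    have e2 : (M : ℝ) + 1 - Real.log β = M + 1 + q := by rw [hq]; ring
    have e3 : L - Real.log β = L + q := by rw [hq]; ring
    rw [e1, e2, e3]
    have hU : 0 ≤ c₉ * tot p * (β * (1 + q)) := by positivity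
    have h4 : c₉ * tot p * (β * (1 + q)) * (M + 1 + q) ≤ c₉ * tot p * (β * (1 + q)) * (8 * (L + q)) :=
      mul_le_mul_of_nonneg_left (by linarith) hU
    have h5 : β * ((Sg + (B.card : ℝ) * (6 + q)) / Real.log 2) ≤
        β * (2 * (cs * tot p + (6 + q) * (c₉ * tot p))) := mul_le_mul_of_nonneg_left h1 h0.le
    have h6 : 2 * (cs * tot p + (6 + q) * (c₉ * tot p)) ≤
        (24 * c₉ + 4 * cs) * tot p * ((1 + q) * (L + q)) := by
      have h7 : (1 : ℝ) / 2 ≤ (1 + q) * (L + q) := by nlinarith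
      have h8 : (6 + q) * (1 / 2) ≤ 6 * ((1 + q) * (L + q)) := by nlinarith
      have h9 : 0 ≤ cs * (tot p : ℝ) := by positivity
      have h10 : 0 ≤ c₉ * (tot p : ℝ) := by positivity
      nlinarith
    have h7 : β * (2 * (cs * tot p + (6 + q) * (c₉ * tot p))) ≤
        β * ((24 * c₉ + 4 * cs) * tot p * ((1 + q) * (L + q))) := mul_le_mul_of_nonneg_left h6 h0.le
    have e4 : (32 * c₉ + 4 * cs) * tot p * (β * (1 + q)) * (L + q) =
        c₉ * tot p * (β * (1 + q)) * (8 * (L + q)) +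
          β * ((24 * c₉ + 4 * cs) * tot p * ((1 + q) * (L + q))) := by ring
    rw [e4]
    linarith

end Pool.Agent.MP_c11b14_lc.OP
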