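import Pool.Agent.Lib.MP_c11b14_lc.TB.T5
import Pool.Agent.Lib.MP_c11b14_lc.OP.R1

set_option autoImplicit false

/-! T7: the theorem for sets of parameters. -/

namespace Pool.Agent.MP_c11b14_lc.OP

open Polynomial MeasureTheory
open scoped ENNReal

/-- The factor of the bounds. -/
theorem T7_pos {β L : ℝ} (h0 : 0 < β) (h1 : β ≤ 1) (hL : Real.log 2 ≤ L) :
    0 ≤ 1 - Real.log β ∧ 0 ≤ L - Real.log β ∧ 1 ≤ 1 - Real.log β ∧ Real.log 2 ≤ L - Real.log β ∧
      0 ≤ β * (1 - Real.log β) * (L - Real.log β) ∧
      β * Real.log 2 ≤ β * (1 - Real.log β) * (L - Real.log β) := by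
  have hl := Real.log_nonpos h0.le h1
  have hl2 : 0 < Real.log 2 := Real.log_pos one_lt_two
  have a1 : 1 ≤ 1 - Real.log β := by linarith
  have a2 : Real.log 2 ≤ L - Real.log β := by linarith
  refine ⟨by linarith, by linarith, a1, a2, ?_, ?_⟩
  · exact mul_nonneg (mul_nonneg h0.le (by linarith)) (by linarith)
  · rw [mul_assoc]
    refine mul_le_mul_of_nonneg_left ?_ h0.le
    calc Real.log 2 = 1 * Real.log 2 := (one_mul _).symm
      _ ≤ (1 - Real.log β) * (L - Real.log β) := mul_le_mul a1 a2 hl2.le (by linarith)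

/-- T7a. PROOF. Copy of `G2.one_parameter` with `pos_boundS`. -/
theorem one_parameterS : ∃ c : ℝ, 0 < c ∧ ∀ (m n : ℕ) (f : Fin m → ℝ[X]) (g : Fin n → ℝ[X]) (T d : ℕ),
    (∀ i, f i ≠ 0) → (∀ j, g j ≠ 0) → ∑ i, (f i).support.card + ∑ j, (g j).support.card = T → 1 ≤ T →
    (∏ i, f i).natDegree ≤ d → (∏ j, g j).natDegree ≤ d →
    MajS (fun lm => ((((∏ i, f i) + C lm * ∏ j, g j).roots.toFinset.card : ℕ) : ℝ≥0∞))
      (fun β => ENNReal.ofReal (c * T * (β * (1 - Real.log β)) * (Real.log (2 + (d : ℝ) / T) - Real.log β))) := by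
  classical
  obtain ⟨c, hc, hmain⟩ := pos_boundS
  refine ⟨2 * c + 1 / Real.log 2, by
    have := Real.log_pos one_lt_two
    positivity, ?_⟩
  intro m n f g T d hf hg hT hT1 hdf hdg
  let κ := Fin m ⊕ Fin n
  let p : κ → ℝ[X] := Sum.elim f g
  let σ : κ → Bool := Sum.elim (fun _ => true) (fun _ => false)
  let p' : κ → ℝ[X] := fun k => (p k).comp (-X)
  have hp : ∀ k, p k ≠ 0 := by
    rintro (i | j)
    · exact hf i
    · exact hg j
  have hp' : ∀ k, p' k ≠ 0 := fun k => G2_comp_ne (hp k)
  have hgt : gp p σ true = ∏ i, f i := by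
    unfold gp
    rw [Finset.prod_filter, Fintype.prod_sum_type]
    simp [p, σ]
  have hgf : gp p σ false = ∏ j, g j := by
    unfold gp
    rw [Finset.prod_filter, Fintype.prod_sum_type]
    simp [p, σ]
  have hgc : ∀ b, gp p' σ b = (gp p σ b).comp (-X) := by
    intro b
    unfold gp
    rw [Polynomial.prod_comp]
  have htot : tot p = T := by
    unfold tot
    rw [Fintype.sum_sum_type]
    exact hT
  have htot' : tot p' = T := by
    rw [← htot]
    unfold tot
    exact Finset.sum_congr rfl fun k _ => G2_comp_support (p k)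
  have hdeg : ∀ b, (gp p' σ b).natDegree = (gp p σ b).natDegree := by
    intro b
    rw [hgc, Polynomial.natDegree_comp]
    simp
  have h1 := hmain κ p σ hp (by rw [htot]; exact hT1) d (by rw [hgt]; exact hdf) (by rw [hgf]; exact hdg)
  have h2 := hmain κ p' σ hp' (by rw [htot']; exact hT1) d (by rw [hdeg, hgt]; exact hdf)
    (by rw [hdeg, hgf]; exact hdg)
  rw [htot] at h1
  rw [htot'] at h2
  refine ((h1.add h2).add (MajS.const 1)).mono' ?_ ?_
  · intro lm _ _
    have hpl : (∏ i, f i) + C lm * ∏ j, g j = pl p σ lm := by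
      unfold pl
      rw [hgt, hgf]
    rw [hpl]
    refine G2_count p p' σ lm ?_
    intro x
    unfold pl
    rw [hgc, hgc]
    simp [Polynomial.eval_comp]
  · intro β h0 h1'
    have hT0 : (1 : ℝ) ≤ T := by exact_mod_cast hT1
    have hl2 : 0 < Real.log 2 := Real.log_pos (by norm_num)
    obtain ⟨-, -, -, -, hw, hw2⟩ := T7_pos h0 h1' (log_ge (d := d) (T := T))
    set W : ℝ := β * (1 - Real.log β) * (Real.log (2 + (d : ℝ) / T) - Real.log β) with hW
    have e1 : c * T * (β * (1 - Real.log β)) * (Real.log (2 + (d : ℝ) / T) - Real.log β) = c * T * W := by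
      rw [hW]; ring
    have e2 : (2 * c + 1 / Real.log 2) * T * (β * (1 - Real.log β)) *
        (Real.log (2 + (d : ℝ) / T) - Real.log β) = c * T * W + c * T * W + T * (1 / Real.log 2 * W) := by
      rw [hW]; ring
    have hX : 0 ≤ c * T * W := mul_nonneg (mul_nonneg hc.le (by linarith)) hw
    rw [e1, e2, one_mul, ← ENNReal.ofReal_add hX hX, ← ENNReal.ofReal_add (by linarith) h0.le]
    refine ENNReal.ofReal_le_ofReal ?_
    have h3 : β ≤ 1 / Real.log 2 * W := by
      have h4 : β = 1 / Real.log 2 * (β * Real.log 2) := by field_simp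
      calc β = 1 / Real.log 2 * (β * Real.log 2) := h4
        _ ≤ 1 / Real.log 2 * W := mul_le_mul_of_nonneg_left hw2 (by positivity)
    have h5 : 1 / Real.log 2 * W ≤ T * (1 / Real.log 2 * W) := by
      have h6 : 0 ≤ 1 / Real.log 2 * W := mul_nonneg (by positivity) hw
      nlinarith
    linarith

/-- T7b. PROOF. Copy of `R1.part_A`. -/
theorem part_AS : ∃ c : ℝ, 0 < c ∧ ∀ (m n : ℕ) (f : Fin m → ℝ[X]) (g : Fin n → ℝ[X]) (T d : ℕ),
    (∀ i, f i ≠ 0) → (∀ j, g j ≠ 0) → ∑ i, (f i).support.card + ∑ j, (g j).support.card = T →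
    (∏ i, f i).natDegree ≤ d → (∏ j, g j).natDegree ≤ d → ∀ a : ℝ,
    MajS (fun c => ((((∏ i, f i) + C (a * c) * ∏ j, g j).roots.toFinset.card : ℕ) : ℝ≥0∞))
      (fun β => ENNReal.ofReal (c * T * (β * (1 - Real.log β)) * (Real.log (2 + (d : ℝ) / T) - Real.log β))) := by
  obtain ⟨c, hc, h⟩ := one_parameterS
  have hl2 : 0 < Real.log 2 := Real.log_pos one_lt_two
  refine ⟨2 * c + 2 / Real.log 2, by positivity, ?_⟩
  intro m n f g T d hf hg hT hdf hdg a
  rcases Nat.eq_zero_or_pos T with h0 | h0
  · have hm : m = 0 := by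
      by_contra hm
      have i0 : Fin m := ⟨0, Nat.pos_of_ne_zero hm⟩
      have h1 : (f i0).support.card ≤ ∑ i, (f i).support.card :=
        Finset.single_le_sum (f := fun i => (f i).support.card) (fun _ _ => Nat.zero_le _)
          (Finset.mem_univ i0)
      have h2 : 0 < (f i0).support.card :=
        Finset.card_pos.2 (Polynomial.nonempty_support_iff.2 (hf i0))
      omega
    have hn : n = 0 := by
      by_contra hn
      have i0 : Fin n := ⟨0, Nat.pos_of_ne_zero hn⟩
      have h1 : (g i0).support.card ≤ ∑ i, (g i).support.card :=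
        Finset.single_le_sum (f := fun i => (g i).support.card) (fun _ _ => Nat.zero_le _)
          (Finset.mem_univ i0)
      have h2 : 0 < (g i0).support.card :=
        Finset.card_pos.2 (Polynomial.nonempty_support_iff.2 (hg i0))
      omega
    subst hm hn
    refine (MajS.const 0).mono' ?_ (fun β _ _ => by simp)
    intro lm _ _
    have : (∏ i, f i) + C (a * lm) * ∏ j, g j = C (1 + a * lm) := by
      simp
    rw [this, Polynomial.roots_C]
    simp
  have hT0 : (1 : ℝ) ≤ T := by exact_mod_cast h0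
  have hlog := log_ge (d := d) (T := T)
  rcases eq_or_ne a 0 with ha | ha
  · subst ha
    refine (MajS.const (2 * T : ℕ)).mono' ?_ ?_
    · intro lm _ _
      have h1 : (∏ i, f i) + C (0 * lm) * ∏ j, g j = ∏ i, f i := by simp
      rw [h1]
      have h2 := roots_prod_card f hf
      have h3 : ∑ i, (f i).support.card ≤ T := by omega
      exact_mod_cast h2.trans (Nat.mul_le_mul_left 2 h3)
    · intro β h0 h1
      obtain ⟨-, -, -, -, hw, hw2⟩ := T7_pos h0 h1 hlog
      rw [← ENNReal.ofReal_natCast, ← ENNReal.ofReal_mul (by positivity)]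
      refine ENNReal.ofReal_le_ofReal ?_
      push_cast
      set W : ℝ := β * (1 - Real.log β) * (Real.log (2 + (d : ℝ) / T) - Real.log β) with hW
      have e2 : (2 * c + 2 / Real.log 2) * T * (β * (1 - Real.log β)) *
          (Real.log (2 + (d : ℝ) / T) - Real.log β) = 2 * c * T * W + T * (2 / Real.log 2 * W) := by
        rw [hW]; ring
      rw [e2]
      have h3 : 2 * β ≤ 2 / Real.log 2 * W := by
        have h4 : 2 * β = 2 / Real.log 2 * (β * Real.log 2) := by field_simp
        rw [h4]
        exact mul_le_mul_of_nonneg_left hw2 (by positivity)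
      have h6 : 0 ≤ 2 * c * T * W := mul_nonneg (by positivity) hw
      nlinarith
  · have h1 := h m (n + 1) f (Fin.cons (C a) g) (T + 1) d hf ?_ ?_ (by omega) hdf ?_
    · refine h1.mono' ?_ (fun β hβ0 hβ1 => ENNReal.ofReal_le_ofReal ?_)
      · intro lm _ _
        have h2 : (∏ i, f i) + C (a * lm) * ∏ j, g j =
            (∏ i, f i) + C lm * ∏ j, (Fin.cons (C a) g : Fin (n + 1) → ℝ[X]) j := by
          rw [Fin.prod_univ_succ]
          simp only [Fin.cons_zero, Fin.cons_succ]
          rw [C_mul]
          ring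
        rw [h2]
      · have h2 : Real.log (2 + (d : ℝ) / ((T + 1 : ℕ) : ℝ)) ≤ Real.log (2 + (d : ℝ) / T) := by
          refine Real.log_le_log (by positivity) ?_
          have : (d : ℝ) / ((T + 1 : ℕ) : ℝ) ≤ (d : ℝ) / T := by
            refine div_le_div_of_nonneg_left (by positivity) (by linarith) ?_
            push_cast
            linarith
          linarith
        have h3 : (0 : ℝ) ≤ Real.log (2 + (d : ℝ) / ((T + 1 : ℕ) : ℝ)) :=
          Real.log_nonneg (by
            have : (0 : ℝ) ≤ (d : ℝ) / ((T + 1 : ℕ) : ℝ) := by positivity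
            linarith)
        obtain ⟨w1, w2, -, -, hw, -⟩ := T7_pos hβ0 hβ1 hlog
        have hb : 0 ≤ β * (1 - Real.log β) := mul_nonneg hβ0.le w1
        have hlβ := Real.log_nonpos hβ0.le hβ1
        calc c * ((T + 1 : ℕ) : ℝ) * (β * (1 - Real.log β)) *
              (Real.log (2 + (d : ℝ) / ((T + 1 : ℕ) : ℝ)) - Real.log β)
            ≤ c * (2 * T) * (β * (1 - Real.log β)) * (Real.log (2 + (d : ℝ) / T) - Real.log β) := by
              refine mul_le_mul ?_ (by linarith) (by linarith) (mul_nonneg (by positivity) hb)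
              refine mul_le_mul_of_nonneg_right ?_ hb
              refine mul_le_mul_of_nonneg_left ?_ hc.le
              push_cast
              linarith
          _ ≤ (2 * c + 2 / Real.log 2) * T * (β * (1 - Real.log β)) *
              (Real.log (2 + (d : ℝ) / T) - Real.log β) := by
              have h7 : 0 ≤ 2 / Real.log 2 * T * (β * (1 - Real.log β)) *
                  (Real.log (2 + (d : ℝ) / T) - Real.log β) :=
                mul_nonneg (mul_nonneg (by positivity) hb) w2
              nlinarith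
    · intro j
      refine Fin.cases ?_ (fun j => ?_) j
      · simpa using ha
      · simpa using hg j
    · rw [Fin.sum_univ_succ]
      simp only [Fin.cons_zero, Fin.cons_succ]
      rw [Polynomial.support_C ha, Finset.card_singleton]
      omega
    · rw [Fin.prod_univ_succ]
      simp only [Fin.cons_zero, Fin.cons_succ]
      rw [Polynomial.natDegree_C_mul ha]
      exact hdg

end Pool.Agent.MP_c11b14_lc.OP
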