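import Pool.Agent.Lib.MP_c11b14_lc.TB.T0
import Pool.Agent.Lib.MP_c11b14_lc.OP.R1

set_option autoImplicit false

/-! T8: the tail and the alternations. -/

namespace Pool.Agent.MP_c11b14_lc.OP

open Polynomial MeasureTheory
open scoped ENNReal

/-- T7c. PROOF. `E` = the set, `S = toMeasurable volume E ∩ [1, 2]`, `volume S = volume E = β`. Suppose `β > δ`. `H` from `MajS.everywhere`. `{c ∈ S | K ≤ H c}` is measurable and contains `E`, so it has the measure
`β`, and `K β ≤ ∫_S H ≤ β w(β)`, where `b β = ofReal (β w(β))` and `w` is decreasing: `K ≤ w(β) ≤ w(δ) < K`. -/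
theorem tail {f : ℝ → ℕ} {w : ℝ → ℝ} (hw : ∀ x y, 0 < x → x ≤ y → y ≤ 1 → w y ≤ w x) (hw0 : ∀ x, 0 < x → x ≤ 1 → 0 ≤ w x)
    (h : MajS (fun c => (f c : ℝ≥0∞)) (fun β => ENNReal.ofReal (β * w β))) {δ : ℝ} (h0 : 0 < δ) (h1 : δ ≤ 1) :
    volume {c | c ∈ Set.Icc (1 : ℝ) 2 ∧ w δ < f c} ≤ ENNReal.ofReal δ := by
  obtain ⟨H, hm, hf, hi⟩ := h.everywhere
  set E : Set ℝ := {c | c ∈ Set.Icc (1 : ℝ) 2 ∧ w δ < f c} with hE
  -- the natural number just above `w δ`
  set K : ℕ := ⌊w δ⌋₊ + 1 with hK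
  have hKw : w δ < K := by
    rw [hK]; push_cast; exact Nat.lt_floor_add_one _
  have hKf : ∀ c ∈ E, (K : ℝ≥0∞) ≤ f c := by
    intro c hc
    have h2 : ⌊w δ⌋₊ < f c := (Nat.floor_lt (hw0 δ h0 h1)).2 hc.2
    exact_mod_cast h2
  set S : Set ℝ := {c | c ∈ Set.Icc (1 : ℝ) 2 ∧ (K : ℝ≥0∞) ≤ H c} with hS
  have hSm : MeasurableSet S := measurableSet_Icc.inter (measurableSet_le measurable_const hm)
  have hES : E ⊆ S := fun c hc => ⟨hc.1, (hKf c hc).trans (hf c)⟩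
  have hSI : S ⊆ Set.Icc (1 : ℝ) 2 := fun c hc => hc.1
  refine (measure_mono hES).trans ?_
  by_contra hcon
  rw [not_le] at hcon
  have hI : (volume : Measure ℝ) (Set.Icc (1 : ℝ) 2) = ENNReal.ofReal 1 := by
    rw [Real.volume_Icc]; norm_num
  have hS1 : volume S ≤ ENNReal.ofReal 1 := by
    rw [← hI]; exact measure_mono hSI
  have hfin : volume S ≠ ⊤ := (hS1.trans_lt ENNReal.ofReal_lt_top).ne
  set β : ℝ := (volume S).toReal with hβ
  have hv : volume S = ENNReal.ofReal β := (ENNReal.ofReal_toReal hfin).symm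
  have hδβ : δ < β := by
    rw [hv] at hcon
    exact (ENNReal.ofReal_lt_ofReal_iff_of_nonneg h0.le).1 hcon
  have hβ1 : β ≤ 1 := by
    rw [hv] at hS1
    exact (ENNReal.ofReal_le_ofReal_iff zero_le_one).1 hS1
  have hβ0 : 0 < β := h0.trans hδβ
  have h2 := hi β hβ0 hβ1 S hSI hSm hv
  have h3 : (K : ℝ≥0∞) * volume S ≤ ∫⁻ c in S, H c := by
    rw [← setLIntegral_const]
    exact setLIntegral_mono hm fun c hc => hc.2
  have h4 : ENNReal.ofReal (K * β) ≤ ENNReal.ofReal (β * w β) := by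
    rw [ENNReal.ofReal_mul (by positivity), ENNReal.ofReal_natCast, ← hv]
    exact h3.trans h2
  have h5 : K * β ≤ β * w β :=
    (ENNReal.ofReal_le_ofReal_iff (mul_nonneg hβ0.le (hw0 β hβ0 hβ1))).1 h4
  have h6 := hw δ β h0 hδβ.le hβ1
  have h7 : (K : ℝ) ≤ w β := by
    rw [mul_comm] at h5
    exact le_of_mul_le_mul_left h5 hβ0
  linarith

/-- T7d. PROOF. As `R1.part_D`: for `c ∈ [1, 1 + ε)` the number of roots is `≥ N`, so `N ε ≤ ∫_{[1, 1+ε)} H ≤ ε w(ε)`. -/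
theorem part_DS {F G : ℝ[X]} {w : ℝ → ℝ} (hw0 : ∀ x, 0 < x → x ≤ 1 → 0 ≤ w x)
    (h : MajS (fun c => (((F + C c * G).roots.toFinset.card : ℕ) : ℝ≥0∞)) (fun β => ENNReal.ofReal (β * w β)))
    {ε : ℝ} {N : ℕ} {x : ℕ → ℝ} (hε : 0 < ε) (hε1 : ε ≤ 1) (hx : ∀ i < N, x i < x (i + 1))
    (hs : ∀ i ≤ N, 0 < G.eval (x i) ∧ ε * G.eval (x i) ≤ (-1) ^ i * (F.eval (x i) + G.eval (x i))) :
    (N : ℝ) ≤ w ε := by
  obtain ⟨H, hm, hf, hi⟩ := h.everywhere
  have h1 : ∀ c ∈ Set.Ico (1 : ℝ) (1 + ε), (N : ℝ≥0∞) ≤ H c := by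
    intro c hc
    refine le_trans ?_ (hf c)
    have h2 : N ≤ (F + C c * G).roots.toFinset.card := by
      have hsg : ∀ i ≤ N, 0 < (-1) ^ i * (F + C c * G).eval (x i) := by
        intro i hi
        obtain ⟨hG, h3⟩ := hs i hi
        have h4 : (F + C c * G).eval (x i) = (F.eval (x i) + G.eval (x i)) + (c - 1) * G.eval (x i) := by
          simp
          ring
        have h5 : |(-1 : ℝ) ^ i * ((c - 1) * G.eval (x i))| < ε * G.eval (x i) := by
          rw [abs_mul, abs_pow, abs_neg, abs_one, one_pow, one_mul, abs_mul, abs_of_pos hG,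
            abs_of_nonneg (by linarith [hc.1])]
          exact mul_lt_mul_of_pos_right (by linarith [hc.2]) hG
        have h6 := (abs_lt.1 h5).1
        rw [h4, mul_add]
        linarith
      refine le_card_roots hx ?_
      intro k hk
      have h3 := hsg k hk.le
      have h4 := hsg (k + 1) hk
      have h5 : (-1 : ℝ) ^ k * (-1) ^ (k + 1) = -1 := by
        rw [← pow_add, show k + (k + 1) = 2 * k + 1 by ring, pow_succ, pow_mul]
        norm_num
      have h6 := mul_pos h3 h4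
      have h7 : (-1 : ℝ) ^ k * (F + C c * G).eval (x k) * ((-1) ^ (k + 1) * (F + C c * G).eval (x (k + 1))) =
          ((-1) ^ k * (-1) ^ (k + 1)) * ((F + C c * G).eval (x k) * (F + C c * G).eval (x (k + 1))) := by
        ring
      rw [h7, h5] at h6
      linarith
    exact_mod_cast h2
  have hv : volume (Set.Ico (1 : ℝ) (1 + ε)) = ENNReal.ofReal ε := by
    rw [Real.volume_Ico]
    congr 1
    ring
  have h2 := hi ε hε hε1 (Set.Ico (1 : ℝ) (1 + ε)) (fun c hc => ⟨hc.1, by linarith [hc.2]⟩)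
    measurableSet_Ico hv
  have h3 : (N : ℝ≥0∞) * volume (Set.Ico (1 : ℝ) (1 + ε)) ≤ ∫⁻ c in Set.Ico (1 : ℝ) (1 + ε), H c := by
    rw [← setLIntegral_const]
    exact setLIntegral_mono hm h1
  have h4 : ENNReal.ofReal (N * ε) ≤ ENNReal.ofReal (ε * w ε) := by
    rw [ENNReal.ofReal_mul (by positivity), ENNReal.ofReal_natCast, ← hv]
    exact h3.trans h2
  have h5 : N * ε ≤ ε * w ε :=
    (ENNReal.ofReal_le_ofReal_iff (mul_nonneg hε.le (hw0 ε hε hε1))).1 h4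
  rw [mul_comm] at h5
  exact le_of_mul_le_mul_left h5 hε

end Pool.Agent.MP_c11b14_lc.OP
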