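import Pool.Agent.Lib.MP_c11b14_lc.TB.T7
import Pool.Agent.Lib.MP_c11b14_lc.TB.T8

set_option autoImplicit false

/-! T9: the parts A and B of the final theorem. -/

namespace Pool.Agent.MP_c11b14_lc.OP

open Polynomial MeasureTheory
open scoped ENNReal

/-- The bound: `c T log (2/δ) log ((2 + d/T)/δ)`. -/
noncomputable def wB (c : ℝ) (T d : ℕ) (δ : ℝ) : ℝ :=
  c * T * Real.log (2 / δ) * Real.log ((2 + (d : ℝ) / T) / δ)

theorem wB_eq {c : ℝ} {T d : ℕ} {δ : ℝ} (h0 : 0 < δ) : wB c T d δ =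
    c * T * (Real.log 2 - Real.log δ) * (Real.log (2 + (d : ℝ) / T) - Real.log δ) := by
  have h1 : (0 : ℝ) < 2 + (d : ℝ) / T := by positivity
  unfold wB
  rw [Real.log_div two_ne_zero h0.ne', Real.log_div h1.ne' h0.ne']

theorem wB_nonneg {c : ℝ} (hc : 0 ≤ c) {T d : ℕ} {δ : ℝ} (h0 : 0 < δ) (h1 : δ ≤ 1) : 0 ≤ wB c T d δ := by
  have hl := Real.log_nonpos h0.le h1
  have hl2 : 0 < Real.log 2 := Real.log_pos one_lt_two
  have := log_ge (d := d) (T := T)
  rw [wB_eq h0]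
  exact mul_nonneg (mul_nonneg (by positivity) (by linarith)) (by linarith)

theorem wB_anti {c : ℝ} (hc : 0 ≤ c) {T d : ℕ} {x y : ℝ} (h0 : 0 < x) (hxy : x ≤ y) (h1 : y ≤ 1) :
    wB c T d y ≤ wB c T d x := by
  have hl := Real.log_nonpos (h0.trans_le hxy).le h1
  have hxyl := Real.log_le_log h0 hxy
  have hl2 : 0 < Real.log 2 := Real.log_pos one_lt_two
  have := log_ge (d := d) (T := T)
  rw [wB_eq h0, wB_eq (h0.trans_le hxy)]
  refine mul_le_mul ?_ (by linarith) (by linarith) (mul_nonneg (by positivity) (by linarith))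
  exact mul_le_mul_of_nonneg_left (by linarith) (by positivity)

theorem wB_mono {b c : ℝ} (hbc : b ≤ c) {T d : ℕ} {δ : ℝ} (h0 : 0 < δ) (h1 : δ ≤ 1) :
    wB b T d δ ≤ wB c T d δ := by
  have hl := Real.log_nonpos h0.le h1
  have hl2 : 0 < Real.log 2 := Real.log_pos one_lt_two
  have := log_ge (d := d) (T := T)
  rw [wB_eq h0, wB_eq h0]
  refine mul_le_mul_of_nonneg_right (mul_le_mul_of_nonneg_right ?_ (by linarith)) (by linarith)
  exact mul_le_mul_of_nonneg_right hbc (Nat.cast_nonneg T)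

/-- The form of `part_AS` with `wB`. -/
theorem part_AS' : ∃ c : ℝ, 0 < c ∧ ∀ (m n : ℕ) (f : Fin m → ℝ[X]) (g : Fin n → ℝ[X]) (T d : ℕ),
    (∀ i, f i ≠ 0) → (∀ j, g j ≠ 0) → ∑ i, (f i).support.card + ∑ j, (g j).support.card = T →
    (∏ i, f i).natDegree ≤ d → (∏ j, g j).natDegree ≤ d → ∀ a : ℝ,
    MajS (fun c => ((((∏ i, f i) + C (a * c) * ∏ j, g j).roots.toFinset.card : ℕ) : ℝ≥0∞))
      (fun β => ENNReal.ofReal (β * wB c T d β)) := by
  obtain ⟨c, hc, h⟩ := part_AS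
  have hl2 : 0 < Real.log 2 := Real.log_pos one_lt_two
  refine ⟨c / Real.log 2, by positivity, ?_⟩
  intro m n f g T d hf hg hT hdf hdg a
  refine (h m n f g T d hf hg hT hdf hdg a).mono' (fun _ _ _ => le_rfl) ?_
  intro β h0 h1
  refine ENNReal.ofReal_le_ofReal ?_
  have hl := Real.log_nonpos h0.le h1
  have hlog := log_ge (d := d) (T := T)
  rw [wB_eq h0]
  have e1 : β * (c / Real.log 2 * T * (Real.log 2 - Real.log β) *
      (Real.log (2 + (d : ℝ) / T) - Real.log β)) =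
      c * T * (β * (1 - Real.log β / Real.log 2)) * (Real.log (2 + (d : ℝ) / T) - Real.log β) := by
    field_simp
  rw [e1]
  refine mul_le_mul_of_nonneg_right (mul_le_mul_of_nonneg_left (mul_le_mul_of_nonneg_left ?_ h0.le)
    (by positivity)) (by linarith)
  have h2 : Real.log β / Real.log 2 ≤ Real.log β := by
    rw [div_le_iff₀ hl2]
    have : Real.log 2 ≤ 1 := by linarith [Real.log_two_lt_d9]
    nlinarith
  linarith

end Pool.Agent.MP_c11b14_lc.OP
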